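import Pool.Agent.Helper240.FlatE.Lifts

/-!
The elements of the group are orientation preserving smooth diffeomorphisms.
-/

set_option autoImplicit false

open Filter Topology
open scoped ContDiff

namespace Pool.Agent.Helper240.FlatE

open Pool.Agent.Helper11.PlaneEuler

noncomputable section

/-- smooth in both directions with positive Jacobian determinant, with a lift -/
def Good (f : ℂ ≃ₜ ℂ) : Prop :=
  ContDiff ℝ ∞ f ∧ ContDiff ℝ ∞ (f⁻¹ : ℂ ≃ₜ ℂ) ∧ (∀ z : ℂ, 0 < (fderiv ℝ (f : ℂ → ℂ) z).det) ∧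
    ∃ F : PlaneLift, F.homeo = f

theorem det_id : (ContinuousLinearMap.id ℝ ℂ).det = 1 := by
  unfold ContinuousLinearMap.det
  exact LinearMap.det_id

theorem det_comp (A B : ℂ →L[ℝ] ℂ) : (A.comp B).det = A.det * B.det := by
  unfold ContinuousLinearMap.det
  rw [← LinearMap.det_comp]
  rfl

theorem Good.one : Good 1 := by
  refine ⟨contDiff_id, contDiff_id, fun z => ?_, 1, rfl⟩
  have h : ((1 : ℂ ≃ₜ ℂ) : ℂ → ℂ) = id := rfl
  rw [h, fderiv_id, det_id]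
  exact one_pos

theorem diffAt {f : ℂ → ℂ} (hf : ContDiff ℝ ∞ f) (z : ℂ) : DifferentiableAt ℝ f z :=
  (hf.differentiable (by simp)) z

theorem Good.mul {f g : ℂ ≃ₜ ℂ} (hf : Good f) (hg : Good g) : Good (f * g) := by
  obtain ⟨F, hF⟩ := hf.2.2.2
  obtain ⟨G, hG⟩ := hg.2.2.2
  refine ⟨hf.1.comp hg.1, ?_, fun z => ?_, F * G, by rw [mul_homeo, hF, hG]⟩
  · rw [mul_inv_rev]
    exact hg.2.1.comp hf.2.1
  · have h : ((f * g : ℂ ≃ₜ ℂ) : ℂ → ℂ) = (f : ℂ → ℂ) ∘ g := rfl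
    rw [h, fderiv_comp z (diffAt hf.1 _) (diffAt hg.1 _), det_comp]
    exact mul_pos (hf.2.2.1 _) (hg.2.2.1 _)

theorem det_inv_mul {f : ℂ ≃ₜ ℂ} (h1 : ContDiff ℝ ∞ f) (h2 : ContDiff ℝ ∞ (f⁻¹ : ℂ ≃ₜ ℂ)) (z : ℂ) :
    (fderiv ℝ (f⁻¹ : ℂ ≃ₜ ℂ) (f z)).det * (fderiv ℝ (f : ℂ → ℂ) z).det = 1 := by
  rw [← det_comp, ← fderiv_comp z (diffAt h2 _) (diffAt h1 _)]
  have h : ((f⁻¹ : ℂ ≃ₜ ℂ) : ℂ → ℂ) ∘ (f : ℂ → ℂ) = id := by
    funext w; exact f.symm_apply_apply w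
  rw [h, fderiv_id, det_id]

theorem Good.inv {f : ℂ ≃ₜ ℂ} (hf : Good f) : Good f⁻¹ := by
  obtain ⟨F, hF⟩ := hf.2.2.2
  refine ⟨hf.2.1, by rw [inv_inv]; exact hf.1, fun z => ?_, F⁻¹, by rw [inv_homeo, hF]⟩
  have h := det_inv_mul hf.1 hf.2.1 (f⁻¹ z)
  have h2 : f (f⁻¹ z) = z := f.apply_symm_apply z
  rw [h2] at h
  have h3 := hf.2.2.1 (f⁻¹ z)
  by_contra h4
  push Not at h4
  have := mul_nonpos_of_nonpos_of_nonneg h4 h3.le
  linarith

/-- a diffeomorphism equal to the identity near a point preserves the orientation -/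
theorem good_of_local (f : ℂ ≃ₜ ℂ) (h1 : ContDiff ℝ ∞ f) (h2 : ContDiff ℝ ∞ (f⁻¹ : ℂ ≃ₜ ℂ))
    (c : ℂ) (h : ∀ᶠ z in 𝓝 c, f z = z) : Good f := by
  refine ⟨h1, h2, fun z => ?_, lift_of_local f c h⟩
  have hc : Continuous (fun z => (fderiv ℝ (f : ℂ → ℂ) z).det) :=
    ContinuousLinearMap.continuous_det.comp (h1.continuous_fderiv (by simp))
  have hne : ∀ z, (fderiv ℝ (f : ℂ → ℂ) z).det ≠ 0 := by
    intro z h
    have h3 := det_inv_mul h1 h2 z
    rw [h, mul_zero] at h3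
    exact zero_ne_one h3
  have hpos : 0 < (fderiv ℝ (f : ℂ → ℂ) c).det := by
    have h3 : (f : ℂ → ℂ) =ᶠ[𝓝 c] id := h
    rw [h3.fderiv_eq, fderiv_id, det_id]
    exact one_pos
  by_contra h
  push Not at h
  have h0 : (0 : ℝ) ∈ Set.range (fun z => (fderiv ℝ (f : ℂ → ℂ) z).det) :=
    mem_range_of_exists_le_of_exists_ge hc ⟨z, h⟩ ⟨c, hpos.le⟩
  obtain ⟨w, hw⟩ := h0
  exact hne w hw

theorem Rot_good (a : ℕ → ℤ) : Good (Rot a) := by
  apply good_of_local (Rot a) (rotF_contDiff a) (by rw [Rot_inv]; exact rotF_contDiff _)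
    ((-2 : ℝ) : ℂ)
  filter_upwards [near_re (show (-2 : ℝ) < -3 / 2 by norm_num)] with z h1
  exact Rot_far h1

theorem X_good (a : Fam) : Good (X a) := by
  apply good_of_local (X a) (XF_contDiff _) (by rw [X_inv]; exact XF_contDiff _)
    ((-2 : ℝ) : ℂ)
  filter_upwards [near_re (show (-2 : ℝ) < -3 / 2 by norm_num),
    near_norm (show |(-2 : ℝ)| < 3 by norm_num)] with z h1 h2
  exact X_near a h1 h2

theorem dil_good : Good dil := by
  refine ⟨?_, ?_, fun z => ?_, dilL, rfl⟩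
  · exact contDiff_const.mul contDiff_id
  · have h : ((dil⁻¹ : ℂ ≃ₜ ℂ) : ℂ → ℂ) = fun z => z / 6 := by
      funext z; exact dil_inv_apply z
    rw [h]
    exact contDiff_id.div_const _
  · have h : HasFDerivAt (dil : ℂ → ℂ) ((6 : ℝ) • ContinuousLinearMap.id ℝ ℂ) z := by
      have h2 : (dil : ℂ → ℂ) = fun w => ((6 : ℝ) • ContinuousLinearMap.id ℝ ℂ) w := by
        funext w
        rw [dil_apply]
        simp
      rw [h2]
      exact ((6 : ℝ) • ContinuousLinearMap.id ℝ ℂ).hasFDerivAt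
    rw [h.fderiv]
    have : ((6 : ℝ) • ContinuousLinearMap.id ℝ ℂ).det = 36 := by
      unfold ContinuousLinearMap.det
      have h : (((6 : ℝ) • ContinuousLinearMap.id ℝ ℂ : ℂ →L[ℝ] ℂ) : ℂ →ₗ[ℝ] ℂ) =
        (6 : ℝ) • LinearMap.id := rfl
      rw [h, LinearMap.det_smul, Complex.finrank_real_complex, LinearMap.det_id]
      norm_num
    rw [this]
    norm_num

theorem G0_good {f : ℂ ≃ₜ ℂ} (hf : f ∈ G0) : Good f := by
  induction hf using Subgroup.closure_induction with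
  | mem x hx =>
    rcases hx with rfl | rfl | rfl | rfl
    · exact dil_good
    · exact Rot_good _
    · exact X_good _
    · exact X_good _
  | one => exact Good.one
  | mul x y _ _ hx hy => exact hx.mul hy
  | inv x _ hx => exact hx.inv

end

end Pool.Agent.Helper240.FlatE
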