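import Pool.Agent.Helper240.FlatE.Prod

/-!
The group of homeomorphisms, its relation and its solvability.
-/

set_option autoImplicit false

open Filter Topology
open scoped commutatorElement

namespace Pool.Agent.Helper240.FlatE

noncomputable section

/-- commutators of a group generated by `s` are in `N` when this holds for the generators -/
theorem comm_le {H : Type*} [Group H] (s : Set H) (N : Subgroup H)
    (hN : ∀ g ∈ s, ∀ n ∈ N, g * n * g⁻¹ ∈ N) (hN' : ∀ g ∈ s, ∀ n ∈ N, g⁻¹ * n * g ∈ N)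
    (hs : ∀ a ∈ s, ∀ b ∈ s, a * b * a⁻¹ * b⁻¹ ∈ N) {x y : H} (hx : x ∈ Subgroup.closure s)
    (hy : y ∈ Subgroup.closure s) : x * y * x⁻¹ * y⁻¹ ∈ N := by
  have h0 : ∀ g ∈ Subgroup.closure s, ∀ n ∈ N, g * n * g⁻¹ ∈ N ∧ g⁻¹ * n * g ∈ N := by
    intro g hg
    induction hg using Subgroup.closure_induction with
    | mem g hg => exact fun n hn => ⟨hN g hg n hn, hN' g hg n hn⟩
    | one => intro n hn; simpa using hn
    | mul g h _ _ ihg ihh =>
      intro n hn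
      refine ⟨?_, ?_⟩
      · have := (ihg _ (ihh n hn).1).1
        have e : g * h * n * (g * h)⁻¹ = g * (h * n * h⁻¹) * g⁻¹ := by group
        rw [e]; exact this
      · have := (ihh _ (ihg n hn).2).2
        have e : (g * h)⁻¹ * n * (g * h) = h⁻¹ * (g⁻¹ * n * g) * h := by group
        rw [e]; exact this
    | inv g _ ih =>
      intro n hn
      refine ⟨?_, ?_⟩
      · rw [inv_inv]; exact (ih n hn).2
      · rw [inv_inv]; exact (ih n hn).1
  have h1 : ∀ a ∈ s, ∀ y ∈ Subgroup.closure s, a * y * a⁻¹ * y⁻¹ ∈ N := by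
    intro a ha y hy
    induction hy using Subgroup.closure_induction with
    | mem y hy => exact hs a ha y hy
    | one => simp
    | mul y z hy hz ihy ihz =>
      have e : a * (y * z) * a⁻¹ * (y * z)⁻¹ =
          (a * y * a⁻¹ * y⁻¹) * (y * (a * z * a⁻¹ * z⁻¹) * y⁻¹) := by group
      rw [e]
      exact N.mul_mem ihy (h0 y hy _ ihz).1
    | inv y hy ihy =>
      have e : a * y⁻¹ * a⁻¹ * y⁻¹⁻¹ = y⁻¹ * (a * y * a⁻¹ * y⁻¹)⁻¹ * y := by group
      rw [e]
      exact (h0 y hy _ (N.inv_mem ihy)).2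
  induction hx using Subgroup.closure_induction with
  | mem x hx => exact h1 x hx y hy
  | one => simp
  | mul x w hx hw ihx ihw =>
    have e : x * w * y * (x * w)⁻¹ * y⁻¹ =
        (x * (w * y * w⁻¹ * y⁻¹) * x⁻¹) * (x * y * x⁻¹ * y⁻¹) := by group
    rw [e]
    exact N.mul_mem (h0 x hx _ ihw).1 ihx
  | inv x hx ihx =>
    have e : x⁻¹ * y * x⁻¹⁻¹ * y⁻¹ = x⁻¹ * (x * y * x⁻¹ * y⁻¹)⁻¹ * x := by group
    rw [e]
    exact (h0 x hx _ (N.inv_mem ihx)).2

theorem conj_closure {H : Type*} [Group H] (s : Set H) (g : H)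
    (h : ∀ x ∈ s, g * x * g⁻¹ ∈ Subgroup.closure s) {n : H} (hn : n ∈ Subgroup.closure s) :
    g * n * g⁻¹ ∈ Subgroup.closure s := by
  induction hn using Subgroup.closure_induction with
  | mem x hx => exact h x hx
  | one => simp
  | mul x y _ _ ihx ihy =>
    have e : g * (x * y) * g⁻¹ = (g * x * g⁻¹) * (g * y * g⁻¹) := by group
    rw [e]
    exact Subgroup.mul_mem _ ihx ihy
  | inv x _ ihx =>
    have e : g * x⁻¹ * g⁻¹ = (g * x * g⁻¹)⁻¹ := by group
    rw [e]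
    exact Subgroup.inv_mem _ ihx

/-- solvability of a subgroup with an explicit chain -/
theorem solvable_of_chain {H : Type*} [Group H] (G B A : Subgroup H)
    (h1 : ∀ x ∈ G, ∀ y ∈ G, x * y * x⁻¹ * y⁻¹ ∈ B)
    (h2 : ∀ x ∈ B, ∀ y ∈ B, x * y * x⁻¹ * y⁻¹ ∈ A)
    (h3 : ∀ x ∈ A, ∀ y ∈ A, x * y = y * x) : Group.IsSolvable G := by
  have key : ∀ (K : Subgroup G) (N M : Subgroup H), (∀ x ∈ N, ∀ y ∈ N, x * y * x⁻¹ * y⁻¹ ∈ M) →
      K ≤ N.comap G.subtype → ⁅K, K⁆ ≤ M.comap G.subtype := by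
    intro K N M hNM hK
    rw [Subgroup.commutator_le]
    intro x hx y hy
    exact hNM _ (hK hx) _ (hK hy)
  refine ⟨3, ?_⟩
  have d0 : derivedSeries G 0 ≤ G.comap G.subtype := fun x _ => x.2
  have d1 : derivedSeries G 1 ≤ B.comap G.subtype := by
    rw [derivedSeries_succ]
    exact key _ G B h1 d0
  have d2 : derivedSeries G 2 ≤ A.comap G.subtype := by
    rw [derivedSeries_succ]
    exact key _ B A h2 d1
  have d3 : derivedSeries G 3 ≤ (⊥ : Subgroup H).comap G.subtype := by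
    rw [derivedSeries_succ]
    refine key _ A ⊥ ?_ d2
    intro x hx y hy
    rw [Subgroup.mem_bot, h3 x hx y hy]
    group
  rw [eq_bot_iff]
  intro x hx
  have := d3 hx
  rw [Subgroup.mem_comap, Subgroup.mem_bot] at this
  rw [Subgroup.mem_bot]
  exact Subtype.ext this

/-- elementary multiplicity -/
def el (k : ℕ) : ℕ → ℤ := Pi.single k 1

theorem el_supp {k : ℕ} (h : P k) : Supp (el k) := by
  intro n hn
  by_cases hk : n = k
  · rw [hk]; exact h
  · exfalso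
    apply hn
    unfold el
    rw [Pi.single_eq_of_ne hk]

theorem tr_el : tr 1 oneP (el 0) = el 1 := by
  funext n
  unfold tr
  by_cases h : P n
  · rw [if_pos h]
    have h1 := (P_iff n).1 h
    have h2 : sig 1 oneP n = 6 * (n / 6) + (1 - n % 6) := by
      unfold sig
      have h3 : oneP (n / 6 ^ 1) = 1 := by
        unfold oneP
        rw [if_pos]
        simpa using h1.2
      rw [h3, if_pos (by decide)]
      rfl
    rw [h2]
    by_cases h3 : n = 1
    · subst h3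
      simp [el]
    · unfold el
      rw [Pi.single_eq_of_ne h3, Pi.single_eq_of_ne]
      omega
  · rw [if_neg h]
    have h3 : n ≠ 1 := by
      intro h4
      exact h (h4 ▸ P_one)
    unfold el
    rw [Pi.single_eq_of_ne h3]

/-- one twist around each of the nested discs -/
def fx' : Fam := ⟨fun _ => el 0, fun _ => el_supp P_zero⟩

/-- one twist around each of a sequence of disjoint discs -/
def fx : Fam := ⟨fun i => if i = 0 then el 0 else el 1, fun i => by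
  split_ifs
  · exact el_supp P_zero
  · exact el_supp P_one⟩

/-- the half turns of level zero -/
def S : ℂ ≃ₜ ℂ := Rot oneP

theorem lev_zero_eq (b : ℕ → ℤ) : lev 0 b = Rot b := by
  unfold lev
  rw [pow_zero]
  group

/-- the second hyperbolic element -/
def T : ℂ ≃ₜ ℂ := dil * lev 1 oneP

theorem T_eq : T = dil * dil * S * dil⁻¹ := by
  unfold T lev S
  rw [pow_one]
  group

/-- the full twist -/
def D : ℂ ≃ₜ ℂ := Rot (2 * el 0)

theorem X_level0 (a : Fam) (h : ∀ i, a.1 (i + 1) = 0) : X a = Rot (2 * a.1 0) := by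
  have h1 : ∀ N, XN (N + 1) a.1 = lev 0 (2 * a.1 0) := by
    intro N
    induction N with
    | zero => rw [XN_succ]; exact one_mul _
    | succ N ih =>
      rw [XN_succ, ih, h, mul_zero, lev_zero, mul_one]
  ext z
  show XF a.1 z = Rot (2 * a.1 0) z
  rw [XF_eq a.1 (cnt_spec (Nat.le_succ (cnt z))), h1, lev_zero_eq]

theorem comm_x' : ⁅X fx', dil⁆ = D := by
  rw [commutatorElement_def]
  have h1 : dil * (X fx')⁻¹ * dil⁻¹ = (X (sh fx'))⁻¹ := by
    have h := dil_X fx'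
    have h2 : X (sh fx') = dil * X fx' * dil⁻¹ := by rw [h]; group
    rw [h2]; group
  have h2 : X fx' * dil * (X fx')⁻¹ * dil⁻¹ = X fx' * (dil * (X fx')⁻¹ * dil⁻¹) := by group
  rw [h2, h1, X_inv, X_mul, X_level0]
  · have : (fx' + -sh fx').1 0 = el 0 := by
      show el 0 + -(0 : ℕ → ℤ) = el 0
      simp
    rw [this]
    rfl
  · intro i
    show el 0 + -(el 0) = 0
    exact add_neg_cancel _

theorem comm_x : ⁅X fx, T⁆ = D := by
  rw [commutatorElement_def]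
  have h1 : T * (X fx)⁻¹ * T⁻¹ = (X (sh (cj 1 fx)))⁻¹ := by
    have h := dil_X (cj 1 fx)
    have h' := lev_X fx 1
    have h2 : X (sh (cj 1 fx)) = T * X fx * T⁻¹ := by
      have e1 : T * X fx = X (sh (cj 1 fx)) * T := by
        unfold T
        rw [mul_assoc, h', ← mul_assoc, h]
        group
      rw [e1]; group
    rw [h2]; group
  have h2 : X fx * T * (X fx)⁻¹ * T⁻¹ = X fx * (T * (X fx)⁻¹ * T⁻¹) := by group
  rw [h2, h1, X_inv, X_mul, X_level0]
  · have : (fx + -sh (cj 1 fx)).1 0 = el 0 := by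
      show el 0 + -(0 : ℕ → ℤ) = el 0
      simp
    rw [this]
    rfl
  · intro i
    cases i with
    | zero =>
      show el 1 + -(tr 1 oneP (el 0)) = 0
      rw [tr_el]
      exact add_neg_cancel _
    | succ i =>
      show el 1 + -(el 1) = 0
      exact add_neg_cancel _

/-- conjugate by a power of the dilation -/
def cnj (k : ℕ) (f : ℂ ≃ₜ ℂ) : ℂ ≃ₜ ℂ := (dil ^ k)⁻¹ * f * dil ^ k

theorem cnj_mul (k : ℕ) (f g : ℂ ≃ₜ ℂ) : cnj k f * cnj k g = cnj k (f * g) := by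
  unfold cnj; group

theorem cnj_inv (k : ℕ) (f : ℂ ≃ₜ ℂ) : (cnj k f)⁻¹ = cnj k f⁻¹ := by
  unfold cnj; group

theorem cnj_X_succ (k : ℕ) (a : Fam) : cnj k (X a) = cnj (k + 1) (X (sh a)) := by
  unfold cnj
  have h : X (sh a) = dil * X a * dil⁻¹ := by rw [dil_X]; group
  rw [h, pow_succ']
  group

theorem cnj_X_add (k m : ℕ) (a : Fam) : ∃ b, cnj k (X a) = cnj (k + m) (X b) := by
  induction m with
  | zero => exact ⟨a, rfl⟩
  | succ m ih =>
    obtain ⟨b, hb⟩ := ih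
    exact ⟨sh b, by rw [hb, cnj_X_succ]; rfl⟩

theorem cnj_X_le {k K : ℕ} (h : k ≤ K) (a : Fam) : ∃ b, cnj k (X a) = cnj K (X b) := by
  obtain ⟨m, rfl⟩ := Nat.exists_eq_add_of_le h
  exact cnj_X_add k m a

theorem cnj_lev_succ (k i : ℕ) (b : ℕ → ℤ) : cnj k (lev i b) = cnj (k + 1) (lev (i + 1) b) := by
  unfold cnj
  have h := lev_shift 1 i b
  rw [add_comm 1 i, pow_one] at h
  rw [h, pow_succ']
  group

theorem cnj_lev_le {k K : ℕ} (h : k ≤ K) (i : ℕ) (b : ℕ → ℤ) :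
    ∃ j, cnj k (lev i b) = cnj K (lev j b) := by
  obtain ⟨m, rfl⟩ := Nat.exists_eq_add_of_le h
  refine ⟨i + m, ?_⟩
  induction m with
  | zero => rfl
  | succ m ih => rw [ih (Nat.le_add_right _ _), cnj_lev_succ]; rfl

/-- the abelian group of twists -/
def A : Subgroup (ℂ ≃ₜ ℂ) where
  carrier := {f | ∃ k a, f = cnj k (X a)}
  mul_mem' := by
    rintro f g ⟨k, a, rfl⟩ ⟨l, b, rfl⟩
    obtain ⟨a', ha⟩ := cnj_X_le (le_max_left k l) a
    obtain ⟨b', hb⟩ := cnj_X_le (le_max_right k l) b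
    exact ⟨max k l, a' + b', by rw [ha, hb, cnj_mul, X_mul]⟩
  one_mem' := ⟨0, 0, by rw [X_zero]; unfold cnj; group⟩
  inv_mem' := by
    rintro f ⟨k, a, rfl⟩
    exact ⟨k, -a, by rw [cnj_inv, X_inv]⟩

theorem mem_A {f : ℂ ≃ₜ ℂ} : f ∈ A ↔ ∃ k a, f = cnj k (X a) := Iff.rfl

theorem A_comm : ∀ x ∈ A, ∀ y ∈ A, x * y = y * x := by
  rintro f ⟨k, a, rfl⟩ g ⟨l, b, rfl⟩
  obtain ⟨a', ha⟩ := cnj_X_le (le_max_left k l) a
  obtain ⟨b', hb⟩ := cnj_X_le (le_max_right k l) b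
  rw [ha, hb, cnj_mul, cnj_mul, X_comm]

/-- all half turns -/
def HT : Set (ℂ ≃ₜ ℂ) := {f | ∃ k i, f = cnj k (lev i oneP)}

theorem HT_comm : ∀ x ∈ HT, ∀ y ∈ HT, x * y = y * x := by
  rintro f ⟨k, i, rfl⟩ g ⟨l, j, rfl⟩
  obtain ⟨i', hi⟩ := cnj_lev_le (le_max_left k l) i oneP
  obtain ⟨j', hj⟩ := cnj_lev_le (le_max_right k l) j oneP
  rw [hi, hj, cnj_mul, cnj_mul, lev_oneP_comm]

theorem cj_cj (j : ℕ) (a : Fam) : cj j (cj j a) = a := by
  apply Fam.ext
  funext i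
  show (if i < j then tr (j - i) oneP ((cj j a).1 i) else (cj j a).1 i) = a.1 i
  by_cases h : i < j
  · rw [if_pos h]
    have h2 : (cj j a).1 i = tr (j - i) oneP (a.1 i) := by
      show (if i < j then tr (j - i) oneP (a.1 i) else a.1 i) = _
      rw [if_pos h]
    rw [h2]
    funext n
    by_cases hn : P n
    · have e1 : tr (j - i) oneP (tr (j - i) oneP (a.1 i)) n =
          tr (j - i) oneP (a.1 i) (sig (j - i) oneP n) := by
        rw [tr, if_pos hn]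
      rw [e1, tr_sig hn]
    · rw [tr, if_neg hn]
      by_contra h3
      exact hn (a.2 i n (fun h4 => h3 h4.symm))
  · rw [if_neg h]
    show (if i < j then tr (j - i) oneP (a.1 i) else a.1 i) = _
    rw [if_neg h]

theorem HT_A : ∀ g ∈ HT, ∀ n ∈ A, g * n * g⁻¹ ∈ A ∧ g⁻¹ * n * g ∈ A := by
  rintro g ⟨k, i, rfl⟩ n ⟨l, a, rfl⟩
  obtain ⟨i', hi⟩ := cnj_lev_le (le_max_left k l) i oneP
  obtain ⟨a', ha⟩ := cnj_X_le (le_max_right k l) a
  rw [hi, ha]
  have h1 := lev_X a' i'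
  have h2 := lev_X (cj i' a') i'
  rw [cj_cj] at h2
  refine ⟨⟨max k l, cj i' a', ?_⟩, ⟨max k l, cj i' a', ?_⟩⟩
  · rw [cnj_inv, cnj_mul, cnj_mul, h1]
    congr 1
    group
  · rw [cnj_inv, cnj_mul, cnj_mul]
    congr 1
    have : X a' * lev i' oneP = lev i' oneP * X (cj i' a') := h2.symm
    rw [mul_assoc, this]
    group

/-- generators of the second group of the chain -/
def sB : Set (ℂ ≃ₜ ℂ) := (A : Set (ℂ ≃ₜ ℂ)) ∪ HT

/-- the second group of the chain -/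
def B : Subgroup (ℂ ≃ₜ ℂ) := Subgroup.closure sB

theorem A_le_B {f : ℂ ≃ₜ ℂ} (h : f ∈ A) : f ∈ B := Subgroup.subset_closure (Or.inl h)

theorem HT_B {f : ℂ ≃ₜ ℂ} (h : f ∈ HT) : f ∈ B := Subgroup.subset_closure (Or.inr h)

theorem comm_B {x y : ℂ ≃ₜ ℂ} (hx : x ∈ B) (hy : y ∈ B) : x * y * x⁻¹ * y⁻¹ ∈ A := by
  have hn : ∀ g ∈ sB, ∀ n ∈ A, g * n * g⁻¹ ∈ A ∧ g⁻¹ * n * g ∈ A := by
    rintro g (hg | hg) n hn
    · exact ⟨A.mul_mem (A.mul_mem hg hn) (A.inv_mem hg), A.mul_mem (A.mul_mem (A.inv_mem hg) hn) hg⟩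
    · exact HT_A g hg n hn
  refine comm_le sB A (fun g hg n h => (hn g hg n h).1) (fun g hg n h => (hn g hg n h).2) ?_ hx hy
  rintro a (ha | ha) b (hb | hb)
  · exact A.mul_mem (A.mul_mem (A.mul_mem ha hb) (A.inv_mem ha)) (A.inv_mem hb)
  · have h1 := (HT_A b hb a⁻¹ (A.inv_mem ha)).1
    have e : a * b * a⁻¹ * b⁻¹ = a * (b * a⁻¹ * b⁻¹) := by group
    rw [e]
    exact A.mul_mem ha h1
  · exact A.mul_mem (HT_A a ha b hb).1 (A.inv_mem hb)
  · rw [HT_comm a ha b hb]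
    have e : b * a * a⁻¹ * b⁻¹ = 1 := by group
    rw [e]
    exact A.one_mem

theorem dil_sB {f : ℂ ≃ₜ ℂ} (h : f ∈ sB) : dil * f * dil⁻¹ ∈ sB ∧ dil⁻¹ * f * dil ∈ sB := by
  rcases h with ⟨k, a, rfl⟩ | ⟨k, i, rfl⟩
  · refine ⟨Or.inl ?_, Or.inl ⟨k + 1, a, ?_⟩⟩
    · rw [cnj_X_succ]
      refine ⟨k, sh a, ?_⟩
      unfold cnj
      rw [pow_succ']
      group
    · unfold cnj
      rw [pow_succ]
      group
  · refine ⟨Or.inr ?_, Or.inr ⟨k + 1, i, ?_⟩⟩
    · rw [cnj_lev_succ]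
      refine ⟨k, i + 1, ?_⟩
      unfold cnj
      rw [pow_succ']
      group
    · unfold cnj
      rw [pow_succ]
      group

theorem dil_B {f : ℂ ≃ₜ ℂ} (h : f ∈ B) : dil * f * dil⁻¹ ∈ B ∧ dil⁻¹ * f * dil ∈ B := by
  refine ⟨conj_closure sB dil (fun x hx => Subgroup.subset_closure (dil_sB hx).1) h, ?_⟩
  have := conj_closure sB dil⁻¹ (fun x hx => by
    rw [inv_inv]; exact Subgroup.subset_closure (dil_sB hx).2) h
  rw [inv_inv] at this
  exact this

/-- the four generators -/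
def gens : Set (ℂ ≃ₜ ℂ) := {dil, S, X fx, X fx'}

/-- the group -/
def G0 : Subgroup (ℂ ≃ₜ ℂ) := Subgroup.closure gens

theorem X_mem_A (a : Fam) : X a ∈ A := ⟨0, a, by unfold cnj; group⟩

theorem S_mem : S ∈ HT := ⟨0, 0, by unfold cnj S; rw [lev_zero_eq]; group⟩

theorem G0_le : G0 ≤ Subgroup.closure ({dil} ∪ (B : Set (ℂ ≃ₜ ℂ))) := by
  unfold G0
  rw [Subgroup.closure_le]
  rintro f (rfl | rfl | rfl | rfl)
  · exact Subgroup.subset_closure (Or.inl rfl)
  · exact Subgroup.subset_closure (Or.inr (HT_B S_mem))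
  · exact Subgroup.subset_closure (Or.inr (A_le_B (X_mem_A _)))
  · exact Subgroup.subset_closure (Or.inr (A_le_B (X_mem_A _)))

theorem comm_G0 {x y : ℂ ≃ₜ ℂ} (hx : x ∈ G0) (hy : y ∈ G0) : x * y * x⁻¹ * y⁻¹ ∈ B := by
  refine comm_le ({dil} ∪ (B : Set (ℂ ≃ₜ ℂ))) B ?_ ?_ ?_ (G0_le hx) (G0_le hy)
  · rintro g (rfl | hg) n hn
    · exact (dil_B hn).1
    · exact B.mul_mem (B.mul_mem hg hn) (B.inv_mem hg)
  · rintro g (rfl | hg) n hn
    · exact (dil_B hn).2
    · exact B.mul_mem (B.mul_mem (B.inv_mem hg) hn) hg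
  · rintro a (rfl | ha) b (rfl | hb)
    · have : dil * dil * dil⁻¹ * dil⁻¹ = (1 : ℂ ≃ₜ ℂ) := by group
      rw [this]; exact B.one_mem
    · exact B.mul_mem (dil_B hb).1 (B.inv_mem hb)
    · have e : a * dil * a⁻¹ * dil⁻¹ = a * (dil * a⁻¹ * dil⁻¹) := by group
      rw [e]
      exact B.mul_mem ha (dil_B (B.inv_mem ha)).1
    · exact B.mul_mem (B.mul_mem (B.mul_mem ha hb) (B.inv_mem ha)) (B.inv_mem hb)

theorem G0_solvable : Group.IsSolvable G0 :=
  solvable_of_chain G0 B A (fun _ hx _ hy => comm_G0 hx hy) (fun _ hx _ hy => comm_B hx hy) A_comm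

end

end Pool.Agent.Helper240.FlatE
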