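import Pool.Agent.Helper240.FlatE.Grp
import Pool.Agent.Helper11.PlaneEuler.Lift

/-!
Lifts to the central extension and the lifted relation.
-/

set_option autoImplicit false

open Filter Topology unitInterval
open scoped commutatorElement

namespace Pool.Agent.Helper240.FlatE

open Pool.Agent.Helper11.PlaneEuler

noncomputable section

/-- Comparison of the angle along a path of pairs with an explicit angle. -/
theorem angle_path (F : PlaneLift) (p q : I → ℂ) (hp : Continuous p) (hq : Continuous q)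
    (hne : ∀ s, p s ≠ q s) (γ : I → ℝ) (hγ : Continuous γ)
    (h : ∀ s, ∃ r : ℝ, 0 < r ∧ (F.homeo (q s) - F.homeo (p s)) =
      r * Complex.exp (γ s * Complex.I) * (q s - p s)) :
    F.angle ⟨(p 1, q 1), hne 1⟩ - F.angle ⟨(p 0, q 0), hne 0⟩ = γ 1 - γ 0 := by
  let g : I → ℝ := fun s => F.angle ⟨(p s, q s), hne s⟩ - γ s
  have hg : Continuous g := by
    apply Continuous.sub _ hγ
    apply F.angle.continuous.comp
    exact Continuous.subtype_mk (hp.prodMk hq) _
  have h1 : ∀ s, Circle.exp (g s) = 1 := by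
    intro s
    obtain ⟨r, hr, hrs⟩ := h s
    have h2 := F.spec ⟨(p s, q s), hne s⟩
    have hqp : q s - p s ≠ 0 := sub_ne_zero.mpr (hne s).symm
    simp only at h2
    rw [hrs, mul_div_assoc, div_self hqp, mul_one] at h2
    have h3 : ‖(r : ℂ) * Complex.exp (γ s * Complex.I)‖ = r := by
      rw [norm_mul, Complex.norm_exp_ofReal_mul_I, mul_one, Complex.norm_real, Real.norm_eq_abs,
        abs_of_pos hr]
    rw [h3] at h2
    have hr' : (r : ℂ) ≠ 0 := by exact_mod_cast hr.ne'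
    have h4 := mul_left_cancel₀ hr' h2
    show Circle.exp (F.angle ⟨(p s, q s), hne s⟩ - γ s) = 1
    rw [Circle.exp_sub, (circle_exp_eq_iff _ _).mpr h4.symm, div_self']
  have h2 := Circle.isCoveringMap_exp.const_of_comp (g := g) hg (fun a b => by rw [h1, h1]) 1 0
  simp only [g] at h2
  linarith

/-- the angle is constant along a path of pairs of fixed points -/
theorem angle_fix (F : PlaneLift) (p q : I → ℂ) (hp : Continuous p) (hq : Continuous q)
    (hne : ∀ s, p s ≠ q s) (h1 : ∀ s, F.homeo (p s) = p s) (h2 : ∀ s, F.homeo (q s) = q s) :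
    F.angle ⟨(p 1, q 1), hne 1⟩ = F.angle ⟨(p 0, q 0), hne 0⟩ := by
  have h := angle_path F p q hp hq hne (fun _ => 0) continuous_const (fun s => ⟨1, one_pos, by
    rw [h1, h2]; simp⟩)
  linarith

/-- scaling a pair through fixed points -/
theorem angle_scale (F : PlaneLift) {p q : ℂ} (hpq : p ≠ q) {t : ℝ} (ht : 0 < t) (ht1 : t ≤ 1)
    (h : ∀ s : ℝ, t ≤ s → s ≤ 1 → F.homeo (s * p) = s * p ∧ F.homeo (s * q) = s * q)
    (h' : (t : ℂ) * p ≠ t * q) :
    F.angle ⟨(p, q), hpq⟩ = F.angle ⟨(t * p, t * q), h'⟩ := by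
  have hs : ∀ s : I, t ≤ t + s * (1 - t) ∧ t + s * (1 - t) ≤ 1 := by
    intro s
    have h1 := s.2.1
    have h2 := s.2.2
    constructor <;> nlinarith
  let c : I → ℝ := fun s => t + s * (1 - t)
  have hc : Continuous c := by fun_prop
  have hne : ∀ s : I, (c s : ℂ) * p ≠ (c s : ℂ) * q := by
    intro s h2
    have : ((c s : ℝ) : ℂ) ≠ 0 := by
      have : c s ≠ 0 := by
        have := (hs s).1
        show t + s * (1 - t) ≠ 0
        linarith
      exact_mod_cast this
    exact hpq (mul_left_cancel₀ this h2)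
  have hk := angle_fix F (fun s => (c s : ℂ) * p) (fun s => (c s : ℂ) * q)
    (by fun_prop) (by fun_prop) hne (fun s => (h _ (hs s).1 (hs s).2).1)
    (fun s => (h _ (hs s).1 (hs s).2).2)
  have e1 : c 1 = 1 := by simp [c]
  have e0 : c 0 = t := by simp [c]
  simp only [e1, e0] at hk
  simp only [Complex.ofReal_one, one_mul] at hk
  exact hk

/-- existence of lifts for maps equal to the identity near a point -/
theorem lift_of_local (f : ℂ ≃ₜ ℂ) (c : ℂ) (h : ∀ᶠ z in 𝓝 c, f z = z) :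
    ∃ F : PlaneLift, F.homeo = f := by
  have hs : HasStrictFDerivAt (f : ℂ → ℂ) (ContinuousLinearMap.id ℝ ℂ) c := by
    have h1 := hasStrictFDerivAt_id (𝕜 := ℝ) c
    refine h1.congr_of_eventuallyEq ?_
    filter_upwards [h] with z hz
    exact hz.symm
  obtain ⟨F, hF, _⟩ := exists_lift f c hs
  exact ⟨F, hF⟩

/-- lift of the dilation -/
def dilL : PlaneLift where
  homeo := dil
  angle := ContinuousMap.const _ 0
  spec := by
    intro x
    have e1 := sub_ne x
    have h : (dil x.1.2 - dil x.1.1) / (x.1.2 - x.1.1) = 6 := by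
      rw [dil_apply, dil_apply]
      field_simp
    rw [h]
    simp

theorem dilL_homeo : dilL.homeo = dil := rfl
theorem dilL_angle (x : Conf) : dilL.angle x = 0 := rfl

theorem far_of_re {z : ℂ} (h : z.re ≤ -3 / 2) (n : ℕ) : 2 ≤ ‖z - ctr n‖ := by
  have h1 : |(z - ctr n).re| ≤ ‖z - ctr n‖ := Complex.abs_re_le_norm _
  rw [Complex.sub_re, ctr_re] at h1
  have h2 : (0 : ℝ) ≤ n := Nat.cast_nonneg n
  rw [abs_of_nonpos (by linarith)] at h1
  linarith

theorem Rot_far {a : ℕ → ℤ} {z : ℂ} (h : z.re ≤ -3 / 2) : Rot a z = z :=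
  rotF_far (far_of_re h)

theorem near_re {c : ℝ} {r : ℝ} (h : c < r) : ∀ᶠ z in 𝓝 (c : ℂ), z.re ≤ r := by
  have h1 : ∀ᶠ z : ℂ in 𝓝 (c : ℂ), z.re < r :=
    Complex.continuous_re.continuousAt.eventually_lt continuousAt_const (by simpa using h)
  filter_upwards [h1] with z hz
  exact hz.le

theorem near_norm {c : ℝ} {r : ℝ} (h : |c| < r) : ∀ᶠ z in 𝓝 (c : ℂ), ‖z‖ ≤ r := by
  have h1 : ∀ᶠ z : ℂ in 𝓝 (c : ℂ), ‖z‖ < r :=
    continuous_norm.continuousAt.eventually_lt continuousAt_const (by simpa using h)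
  filter_upwards [h1] with z hz
  exact hz.le

theorem X_near (a : Fam) {z : ℂ} (h1 : z.re ≤ -3 / 2) (h2 : ‖z‖ ≤ 3) : X a z = z := by
  show XF a.1 z = z
  rw [XF_eq (N := 1) a.1 (by linarith)]
  have : XN 1 a.1 z = lev 0 (2 * a.1 0) z := rfl
  rw [this, lev_zero_eq]
  exact Rot_far h1

theorem X_lift (a : Fam) : ∃ F : PlaneLift, F.homeo = X a := by
  apply lift_of_local (X a) ((-2 : ℝ) : ℂ)
  filter_upwards [near_re (show (-2 : ℝ) < -3 / 2 by norm_num),
    near_norm (show |(-2 : ℝ)| < 3 by norm_num)] with z h1 h2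
  exact X_near a h1 h2

theorem S_lift : ∃ F : PlaneLift, F.homeo = S := by
  apply lift_of_local S ((-2 : ℝ) : ℂ)
  filter_upwards [near_re (show (-2 : ℝ) < -3 / 2 by norm_num)] with z h1
  exact Rot_far h1

/-- the nested twists are trivial in the disc -/
theorem X'_in {z : ℂ} (hz : ‖z - ctr 0‖ ≤ 1) (hz2 : ‖z‖ ≤ 3) : X fx' z = z := by
  show XF fx'.1 z = z
  rw [XF_eq (N := 1) fx'.1 (by linarith)]
  have : XN 1 fx'.1 z = lev 0 (2 * fx'.1 0) z := rfl
  rw [this, lev_zero_eq, Rot_apply]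
  exact rotF_in (even_two _) hz

theorem re_div {z : ℂ} (i : ℕ) : (z / 6 ^ i).re = z.re / 6 ^ i := by
  have : (6 : ℂ) ^ i = ((6 ^ i : ℝ) : ℂ) := by push_cast; rfl
  rw [this, Complex.div_ofReal_re]

/-- the twists in disjoint discs are trivial in a half plane -/
theorem X_half {z : ℂ} (h : z.re ≤ -3 / 2) : X fx z = z := by
  show XN (cnt z) fx.1 z = z
  have key : ∀ N, XN N fx.1 z = z := by
    intro N
    induction N with
    | zero => rfl
    | succ N ih =>
      have e : XN (N + 1) fx.1 z = XN N fx.1 (lev N (2 * fx.1 N) z) := rfl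
      have e2 : lev N (2 * fx.1 N) z = z := by
        rw [lev_apply]
        have h6 : (6 : ℂ) ^ N ≠ 0 := pow_ne_zero _ (by norm_num)
        have e3 : rotF (2 * fx.1 N) (z / 6 ^ N) = z / 6 ^ N := by
          apply rotF_far'
          intro n hn
          have hre : (z / 6 ^ N).re ≤ 0 := by
            rw [re_div]
            apply div_nonpos_of_nonpos_of_nonneg (by linarith) (by positivity)
          have h1 : |(z / 6 ^ N - ctr n).re| ≤ ‖z / 6 ^ N - ctr n‖ := Complex.abs_re_le_norm _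
          rw [Complex.sub_re, ctr_re] at h1
          cases N with
          | zero =>
            apply far_of_re
            simpa using h
          | succ N =>
            have hn1 : n = 1 := by
              by_contra h3
              apply hn
              show 2 * el 1 n = 0
              unfold el
              rw [Pi.single_eq_of_ne h3, mul_zero]
            subst hn1
            rw [abs_of_nonpos (by push_cast; linarith)] at h1
            push_cast at h1
            linarith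
        rw [e3]
        field_simp
      rw [e, e2, ih]
  exact key _

theorem lev1_far {b : ℕ → ℤ} {z : ℂ} (h : z.re ≤ -9) : lev 1 b z = z := by
  rw [lev_apply]
  have e3 : rotF b (z / 6 ^ 1) = z / 6 ^ 1 := by
    apply rotF_far
    apply far_of_re
    rw [re_div]
    rw [pow_one]
    linarith
  rw [e3]
  field_simp

theorem T_inv_far {z : ℂ} (h : z.re ≤ -54) : T⁻¹ z = z / 6 := by
  have h1 : T (z / 6) = z := by
    show dil (lev 1 oneP (z / 6)) = z
    rw [lev1_far, dil_apply]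
    · ring
    · have := re_div (z := z) 1
      rw [pow_one] at this
      rw [this]
      linarith
  rw [← h1]
  show T.symm (T _) = _
  rw [T.symm_apply_apply, h1]

/-- first lifted commutator, far away -/
theorem ang_x (XL TL : PlaneLift) (hX : XL.homeo = X fx) (hT : TL.homeo = T)
    (hne : ((-100 : ℝ) : ℂ) ≠ ((-1000 : ℝ) : ℂ)) :
    (⁅XL, TL⁆).angle ⟨(((-100 : ℝ) : ℂ), ((-1000 : ℝ) : ℂ)), hne⟩ = 0 := by
  set y : Conf := ⟨(((-100 : ℝ) : ℂ), ((-1000 : ℝ) : ℂ)), hne⟩ with hy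
  have hw : (((1 / 6 : ℝ)) : ℂ) * ((-100 : ℝ) : ℂ) ≠ ((1 / 6 : ℝ) : ℂ) * ((-1000 : ℝ) : ℂ) := by
    norm_num
  set w : Conf := ⟨(((1 / 6 : ℝ) : ℂ) * ((-100 : ℝ) : ℂ), ((1 / 6 : ℝ) : ℂ) * ((-1000 : ℝ) : ℂ)), hw⟩
    with hwd
  have t1 : onConf T⁻¹ y = w := by
    apply Subtype.ext
    apply Prod.ext
    · show T⁻¹ ((-100 : ℝ) : ℂ) = ((1 / 6 : ℝ) : ℂ) * ((-100 : ℝ) : ℂ)
      rw [T_inv_far (by norm_num)]
      push_cast; ring
    · show T⁻¹ ((-1000 : ℝ) : ℂ) = ((1 / 6 : ℝ) : ℂ) * ((-1000 : ℝ) : ℂ)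
      rw [T_inv_far (by norm_num)]
      push_cast; ring
  have r1 : (((1 / 6 : ℝ) : ℂ) * ((-100 : ℝ) : ℂ)).re ≤ -3 / 2 := by
    rw [← Complex.ofReal_mul, Complex.ofReal_re]; norm_num
  have r2 : (((1 / 6 : ℝ) : ℂ) * ((-1000 : ℝ) : ℂ)).re ≤ -3 / 2 := by
    rw [← Complex.ofReal_mul, Complex.ofReal_re]; norm_num
  have xinv : ∀ z : ℂ, z.re ≤ -3 / 2 → (X fx)⁻¹ z = z := by
    intro z hz
    have h := X_half hz
    have h2 : (X fx)⁻¹ (X fx z) = z := (X fx).symm_apply_apply z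
    rw [h] at h2
    exact h2
  have x1 : onConf (X fx)⁻¹ w = w := by
    apply Subtype.ext
    apply Prod.ext
    · exact xinv _ r1
    · exact xinv _ r2
  have t2 : onConf T w = y := by
    rw [← t1]
    apply Subtype.ext
    apply Prod.ext
    · exact T.apply_symm_apply _
    · exact T.apply_symm_apply _
  have e : (⁅XL, TL⁆).angle y = XL.angle y - XL.angle w := by
    rw [commutatorElement_def, mul_angle, mul_angle, mul_angle, inv_angle, inv_angle, inv_homeo,
      inv_homeo, hT, hX, t1, x1, t2]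
    ring
  rw [e]
  have hsc := angle_scale XL hne (t := 1 / 6) (by norm_num) (by norm_num) (by
    intro s hs _
    rw [hX]
    refine ⟨X_half ?_, X_half ?_⟩
    · rw [← Complex.ofReal_mul, Complex.ofReal_re]; linarith
    · rw [← Complex.ofReal_mul, Complex.ofReal_re]; linarith) hw
  rw [hsc]
  exact sub_self _

theorem ctr_zero : ctr 0 = ((1 / 2 : ℝ) : ℂ) := by unfold ctr; simp

/-- second lifted commutator, in the disc -/
theorem ang_x' (XL : PlaneLift) (hX : XL.homeo = X fx') (hne : ((1 / 2 : ℝ) : ℂ) ≠ ((0 : ℝ) : ℂ)) :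
    (⁅XL, dilL⁆).angle ⟨(((1 / 2 : ℝ) : ℂ), ((0 : ℝ) : ℂ)), hne⟩ = 0 := by
  set y : Conf := ⟨(((1 / 2 : ℝ) : ℂ), ((0 : ℝ) : ℂ)), hne⟩ with hy
  have hw : (((1 / 6 : ℝ)) : ℂ) * ((1 / 2 : ℝ) : ℂ) ≠ ((1 / 6 : ℝ) : ℂ) * ((0 : ℝ) : ℂ) := by
    norm_num
  set w : Conf := ⟨(((1 / 6 : ℝ) : ℂ) * ((1 / 2 : ℝ) : ℂ), ((1 / 6 : ℝ) : ℂ) * ((0 : ℝ) : ℂ)), hw⟩
    with hwd
  have t1 : onConf dil⁻¹ y = w := by
    apply Subtype.ext
    apply Prod.ext
    · show dil⁻¹ ((1 / 2 : ℝ) : ℂ) = ((1 / 6 : ℝ) : ℂ) * ((1 / 2 : ℝ) : ℂ)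
      rw [dil_inv_apply]
      push_cast; ring
    · show dil⁻¹ ((0 : ℝ) : ℂ) = ((1 / 6 : ℝ) : ℂ) * ((0 : ℝ) : ℂ)
      rw [dil_inv_apply]
      push_cast; ring
  have fixd : ∀ s : ℝ, 0 ≤ s → s ≤ 1 → X fx' ((s : ℂ) * ((1 / 2 : ℝ) : ℂ)) = s * ((1 / 2 : ℝ) : ℂ) ∧
      X fx' ((s : ℂ) * ((0 : ℝ) : ℂ)) = s * ((0 : ℝ) : ℂ) := by
    intro s hs hs1
    refine ⟨X'_in ?_ ?_, X'_in ?_ ?_⟩
    · rw [ctr_zero, ← Complex.ofReal_mul, ← Complex.ofReal_sub, Complex.norm_real,
        Real.norm_eq_abs, abs_le]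
      constructor <;> linarith
    · rw [← Complex.ofReal_mul, Complex.norm_real, Real.norm_eq_abs, abs_le]
      constructor <;> linarith
    · rw [ctr_zero, ← Complex.ofReal_mul, ← Complex.ofReal_sub, Complex.norm_real,
        Real.norm_eq_abs, abs_le]
      constructor <;> linarith
    · rw [← Complex.ofReal_mul, Complex.norm_real, Real.norm_eq_abs, abs_le]
      constructor <;> linarith
  have xinv : ∀ z : ℂ, X fx' z = z → (X fx')⁻¹ z = z := by
    intro z h
    have h2 : (X fx')⁻¹ (X fx' z) = z := (X fx').symm_apply_apply z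
    rw [h] at h2
    exact h2
  have x1 : onConf (X fx')⁻¹ w = w := by
    have h := fixd (1 / 6) (by norm_num) (by norm_num)
    apply Subtype.ext
    apply Prod.ext
    · exact xinv _ h.1
    · exact xinv _ h.2
  have t2 : onConf dil w = y := by
    rw [← t1]
    apply Subtype.ext
    apply Prod.ext
    · exact dil.apply_symm_apply _
    · exact dil.apply_symm_apply _
  have e : (⁅XL, dilL⁆).angle y = XL.angle y - XL.angle w := by
    rw [commutatorElement_def, mul_angle, mul_angle, mul_angle, inv_angle, inv_angle, inv_homeo,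
      inv_homeo, dilL_homeo, hX, t1, x1, t2, dilL_angle]
    ring
  rw [e]
  have hsc := angle_scale XL hne (t := 1 / 6) (by norm_num) (by norm_num) (by
    intro s hs hs1
    rw [hX]
    exact fixd s (by linarith) hs1) hw
  rw [hsc]
  exact sub_self _

theorem D_apply (z : ℂ) : D z = rot1 0 2 z := by
  show rotF (2 * el 0) z = rot1 0 2 z
  by_cases h : ‖z - ctr 0‖ < 2
  · rw [rotF_near (n := 0) (by linarith)]
    have : (2 * el 0) 0 = 2 := by
      show 2 * el 0 0 = 2
      unfold el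
      simp
    rw [this]
  · push Not at h
    rw [rot1_far h]
    apply rotF_far'
    intro n hn
    have hn0 : n = 0 := by
      by_contra h3
      apply hn
      show 2 * el 0 n = 0
      unfold el
      rw [Pi.single_eq_of_ne h3, mul_zero]
    rw [hn0]
    exact h

theorem D_fix_of_far {z : ℂ} (h : 2 ≤ ‖z - ctr 0‖) : D z = z := by
  rw [D_apply, rot1_far h]

/-- the angle of a lift of the full twist: centre of the disc -/
theorem ang_D1 (F : PlaneLift) (hF : F.homeo = D) (h1 : ((1 / 2 : ℝ) : ℂ) ≠ ((0 : ℝ) : ℂ))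
    (h2 : ((1 / 2 : ℝ) : ℂ) ≠ ((-1000 : ℝ) : ℂ)) :
    F.angle ⟨(((1 / 2 : ℝ) : ℂ), ((-1000 : ℝ) : ℂ)), h2⟩ -
      F.angle ⟨(((1 / 2 : ℝ) : ℂ), ((0 : ℝ) : ℂ)), h1⟩ = - (2 * Real.pi) := by
  have hne : ∀ s : I, ((1 / 2 : ℝ) : ℂ) ≠ ((-1000 * s : ℝ) : ℂ) := by
    intro s h
    have h3 : (1 / 2 : ℝ) = -1000 * s := by exact_mod_cast h
    have := s.2.1
    linarith
  have hfix : D ((1 / 2 : ℝ) : ℂ) = ((1 / 2 : ℝ) : ℂ) := by
    rw [D_apply, ← ctr_zero]
    unfold rot1
    simp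
  have key := angle_path F (fun _ => ((1 / 2 : ℝ) : ℂ)) (fun s => ((-1000 * s : ℝ) : ℂ))
    continuous_const (by fun_prop) hne
    (fun s => Real.pi * (2 : ℤ) * prof (((-1000 * s : ℝ) : ℂ) - ctr 0))
    (by
      have := prof_contDiff.continuous
      fun_prop)
    (by
      intro s
      refine ⟨1, one_pos, ?_⟩
      rw [hF, hfix, D_apply]
      unfold rot1
      rw [ctr_zero]
      push_cast
      ring)
  have e1 : prof (((-1000 * ((1 : I) : ℝ) : ℝ) : ℂ) - ctr 0) = 0 := by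
    apply prof_zero
    rw [ctr_zero, ← Complex.ofReal_sub, Complex.norm_real]
    norm_num
  have e0 : prof (((-1000 * ((0 : I) : ℝ) : ℝ) : ℂ) - ctr 0) = 1 := by
    apply prof_one
    rw [ctr_zero, ← Complex.ofReal_sub, Complex.norm_real]
    norm_num
  rw [e1, e0] at key
  have c1 : (((-1000 * ((1 : I) : ℝ) : ℝ)) : ℂ) = ((-1000 : ℝ) : ℂ) := by norm_num
  have c0 : (((-1000 * ((0 : I) : ℝ) : ℝ)) : ℂ) = ((0 : ℝ) : ℂ) := by norm_num
  simp only [c1, c0] at key
  rw [key]
  push_cast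
  ring

/-- the angle of a lift of the full twist: outside the disc -/
theorem ang_D2 (F : PlaneLift) (hF : F.homeo = D) (h1 : ((-100 : ℝ) : ℂ) ≠ ((-1000 : ℝ) : ℂ))
    (h2 : ((1 / 2 : ℝ) : ℂ) ≠ ((-1000 : ℝ) : ℂ)) :
    F.angle ⟨(((-100 : ℝ) : ℂ), ((-1000 : ℝ) : ℂ)), h1⟩ =
      F.angle ⟨(((1 / 2 : ℝ) : ℂ), ((-1000 : ℝ) : ℂ)), h2⟩ := by
  let p : I → ℂ := fun s => ((1 / 2 - 100.5 * s : ℝ) : ℂ)
  have hpr : ∀ s : I, -1000 < (p s).re := by
    intro s
    have := s.2.2
    show -1000 < (((1 / 2 - 100.5 * s : ℝ) : ℂ)).re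
    rw [Complex.ofReal_re]
    linarith
  have hDp : ∀ s : I, -1000 < (D (p s)).re := by
    intro s
    by_cases h : ‖p s - ctr 0‖ < 2
    · rw [D_apply]
      have h3 := rot1_norm 0 2 (p s)
      have h4 : |(rot1 0 2 (p s) - ctr 0).re| ≤ ‖rot1 0 2 (p s) - ctr 0‖ := Complex.abs_re_le_norm _
      rw [h3, Complex.sub_re, ctr_re, abs_le] at h4
      have := h4.1
      push_cast at this
      linarith
    · rw [D_fix_of_far (not_lt.mp h)]
      exact hpr s
  have hne : ∀ s : I, p s ≠ ((-1000 : ℝ) : ℂ) := by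
    intro s h
    have := hpr s
    rw [h, Complex.ofReal_re] at this
    linarith
  have hfar : D ((-1000 : ℝ) : ℂ) = ((-1000 : ℝ) : ℂ) := by
    apply D_fix_of_far
    rw [ctr_zero, ← Complex.ofReal_sub, Complex.norm_real]
    norm_num
  have s1 : ∀ s : I, D (p s) + 1000 ∈ Complex.slitPlane := by
    intro s
    left
    have := hDp s
    rw [Complex.add_re]
    have : (1000 : ℂ).re = 1000 := rfl
    rw [this]
    linarith [hDp s]
  have s2 : ∀ s : I, p s + 1000 ∈ Complex.slitPlane := by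
    intro s
    left
    rw [Complex.add_re]
    have : (1000 : ℂ).re = 1000 := rfl
    rw [this]
    linarith [hpr s]
  have hpc : Continuous p := by
    show Continuous fun s : I => ((1 / 2 - 100.5 * s : ℝ) : ℂ)
    fun_prop
  have key := angle_path F p (fun _ => ((-1000 : ℝ) : ℂ)) hpc continuous_const hne
    (fun s => Complex.arg (D (p s) + 1000) - Complex.arg (p s + 1000))
    (by
      have hD := D.continuous
      rw [continuous_iff_continuousAt]
      intro s
      refine ContinuousAt.sub ?_ ?_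
      · exact ContinuousAt.comp (g := Complex.arg) (f := fun s : I => D (p s) + 1000)
          (Complex.continuousAt_arg (s1 s)) (Continuous.continuousAt (by fun_prop))
      · exact ContinuousAt.comp (g := Complex.arg) (f := fun s : I => p s + 1000)
          (Complex.continuousAt_arg (s2 s)) (Continuous.continuousAt (by fun_prop)))
    (by
      intro s
      have ha := Complex.slitPlane_ne_zero (s1 s)
      have hb := Complex.slitPlane_ne_zero (s2 s)
      refine ⟨‖D (p s) + 1000‖ / ‖p s + 1000‖,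
        div_pos (norm_pos_iff.mpr ha) (norm_pos_iff.mpr hb), ?_⟩
      rw [hF, hfar]
      have k1 := Complex.norm_mul_exp_arg_mul_I (D (p s) + 1000)
      have k2 := Complex.norm_mul_exp_arg_mul_I (p s + 1000)
      have k3 : Complex.exp (((Complex.arg (D (p s) + 1000) - Complex.arg (p s + 1000) : ℝ) : ℂ) *
          Complex.I) = Complex.exp ((Complex.arg (D (p s) + 1000) : ℂ) * Complex.I) /
          Complex.exp ((Complex.arg (p s + 1000) : ℂ) * Complex.I) := by
        rw [← Complex.exp_sub]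
        congr 1
        push_cast
        ring
      rw [k3]
      have e1 : ((-1000 : ℝ) : ℂ) - D (p s) = -(D (p s) + 1000) := by push_cast; ring
      have e2 : ((-1000 : ℝ) : ℂ) - p s = -(p s + 1000) := by push_cast; ring
      rw [e1, e2]
      push_cast
      rw [div_mul_div_comm, k1, k2]
      field_simp)
  have p0 : p 0 = ((1 / 2 : ℝ) : ℂ) := by
    show (((1 / 2 - 100.5 * ((0 : I) : ℝ) : ℝ)) : ℂ) = _
    norm_num
  have p1 : p 1 = ((-100 : ℝ) : ℂ) := by
    show (((1 / 2 - 100.5 * ((1 : I) : ℝ) : ℝ)) : ℂ) = _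
    norm_num
  have d0 : D ((1 / 2 : ℝ) : ℂ) = ((1 / 2 : ℝ) : ℂ) := by
    rw [D_apply, ← ctr_zero]
    unfold rot1
    simp
  have d1 : D ((-100 : ℝ) : ℂ) = ((-100 : ℝ) : ℂ) := by
    apply D_fix_of_far
    rw [ctr_zero, ← Complex.ofReal_sub, Complex.norm_real]
    norm_num
  simp only [p0, p1, d0, d1, sub_self] at key
  linarith

/-- **The lifted relation.** -/
theorem lifted_relation (XL TL XL' : PlaneLift) (h1 : XL.homeo = X fx) (h2 : TL.homeo = T)
    (h3 : XL'.homeo = X fx') : ⁅XL, TL⁆ = central 1 * ⁅XL', dilL⁆ := by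
  have hD1 : (⁅XL, TL⁆).homeo = D := by
    have : (⁅XL, TL⁆).homeo = ⁅XL.homeo, TL.homeo⁆ := rfl
    rw [this, h1, h2, comm_x]
  have hD2 : (⁅XL', dilL⁆).homeo = D := by
    have : (⁅XL', dilL⁆).homeo = ⁅XL'.homeo, dilL.homeo⁆ := rfl
    rw [this, h3, dilL_homeo, comm_x']
  obtain ⟨k, hk⟩ := lift_unique _ _ (hD1.trans hD2.symm)
  have n1 : ((-100 : ℝ) : ℂ) ≠ ((-1000 : ℝ) : ℂ) := by norm_num
  have n2 : ((1 / 2 : ℝ) : ℂ) ≠ ((0 : ℝ) : ℂ) := by norm_num
  have n3 : ((1 / 2 : ℝ) : ℂ) ≠ ((-1000 : ℝ) : ℂ) := by norm_num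
  have a1 := ang_x XL TL h1 h2 n1
  have a2 := ang_x' XL' h3 n2
  have a3 := ang_D1 ⁅XL', dilL⁆ hD2 n2 n3
  have a4 := ang_D2 ⁅XL', dilL⁆ hD2 n1 n3
  rw [hk, mul_angle] at a1
  have hc : (central k).angle (onConf (⁅XL', dilL⁆).homeo ⟨(((-100 : ℝ) : ℂ), ((-1000 : ℝ) : ℂ)), n1⟩) =
    2 * Real.pi * k := rfl
  rw [hc, a4] at a1
  have h5 : 2 * Real.pi * ((k : ℝ) - 1) = 0 := by linarith
  have h6 : (k : ℝ) = 1 := by
    have hpi := Real.pi_pos
    have : (k : ℝ) - 1 = 0 := by
      rcases mul_eq_zero.mp h5 with h | h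
      · linarith
      · exact h
    linarith
  have h7 : k = 1 := by exact_mod_cast h6
  rw [hk, h7]

end

end Pool.Agent.Helper240.FlatE
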