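import Pool.Agent.Helper240.FlatE.Tree

/-!
Infinite products of full twists, and their conjugates.
-/

set_option autoImplicit false

open Filter Topology
open scoped ContDiff

namespace Pool.Agent.Helper240.FlatE

noncomputable section

/-- multiplicity functions supported on the set `P` -/
def Supp (a : ℕ → ℤ) : Prop := ∀ n, a n ≠ 0 → P n

theorem Supp.add {a b : ℕ → ℤ} (ha : Supp a) (hb : Supp b) : Supp (a + b) := by
  intro n hn
  by_cases h : a n = 0
  · apply hb
    intro h2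
    apply hn
    simp [h, h2]
  · exact ha n h

theorem Supp.neg {a : ℕ → ℤ} (ha : Supp a) : Supp (-a) := fun n hn => ha n (by simpa using hn)

theorem Supp.two {a : ℕ → ℤ} (ha : Supp a) : Supp (2 * a) := by
  intro n hn
  apply ha
  intro h
  apply hn
  simp [h]

theorem Supp.zero : Supp 0 := fun _ hn => absurd rfl hn

theorem even_two (a : ℕ → ℤ) (n : ℕ) : Even ((2 * a) n) := ⟨a n, by simp [two_mul]⟩

theorem lev_shift (i j : ℕ) (b : ℕ → ℤ) : lev (i + j) b = dil ^ i * lev j b * (dil ^ i)⁻¹ := by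
  unfold lev
  rw [pow_add]
  group

theorem lev_comm_same (i : ℕ) (a b : ℕ → ℤ) : lev i a * lev i b = lev i b * lev i a := by
  rw [lev_mul, lev_mul, add_comm]

theorem conj_comm {G : Type*} [Group G] {g x y : G} (h : x * y = y * x) :
    (g * x * g⁻¹) * (g * y * g⁻¹) = (g * y * g⁻¹) * (g * x * g⁻¹) := by
  have e1 : (g * x * g⁻¹) * (g * y * g⁻¹) = g * (x * y) * g⁻¹ := by group
  have e2 : (g * y * g⁻¹) * (g * x * g⁻¹) = g * (y * x) * g⁻¹ := by group
  rw [e1, e2, h]

theorem lev_comm_lt {i j : ℕ} (hij : i < j) {a b : ℕ → ℤ} (ha : Supp a) (hb : ∀ n, Even (b n)) :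
    lev i a * lev j b = lev j b * lev i a := by
  obtain ⟨k, rfl⟩ : ∃ k, j = i + k := ⟨j - i, by omega⟩
  have hk : 1 ≤ k := by omega
  rw [lev_shift]
  have h := lev_even (show ∀ n, a n ≠ 0 → P n from ha) hk hb
  exact (conj_comm h).symm

theorem lev_comm {i j : ℕ} {a b : ℕ → ℤ} (ha : Supp a) (hb : Supp b) :
    lev i (2 * a) * lev j (2 * b) = lev j (2 * b) * lev i (2 * a) := by
  rcases lt_trichotomy i j with h | h | h
  · exact lev_comm_lt h ha.two (even_two b)
  · subst h; exact lev_comm_same _ _ _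
  · exact (lev_comm_lt h hb.two (even_two a)).symm

/-- finite products of full twists -/
def XN : ℕ → (ℕ → ℕ → ℤ) → (ℂ ≃ₜ ℂ)
  | 0, _ => 1
  | N + 1, a => XN N a * lev N (2 * a N)

theorem XN_succ (N : ℕ) (a : ℕ → ℕ → ℤ) : XN (N + 1) a = XN N a * lev N (2 * a N) := rfl

theorem XN_comm_lev {a : ℕ → ℕ → ℤ} (ha : ∀ i, Supp (a i)) (N j : ℕ) {b : ℕ → ℤ} (hb : Supp b) :
    XN N a * lev j (2 * b) = lev j (2 * b) * XN N a := by
  induction N with
  | zero => show 1 * _ = _ * 1; rw [one_mul, mul_one]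
  | succ N ih => rw [XN_succ, mul_assoc, lev_comm (ha N) hb, ← mul_assoc, ih, mul_assoc]

theorem XN_mul {a b : ℕ → ℕ → ℤ} (hb : ∀ i, Supp (b i)) (ha : ∀ i, Supp (a i)) (N : ℕ) :
    XN N a * XN N b = XN N (a + b) := by
  induction N with
  | zero => show (1 : ℂ ≃ₜ ℂ) * 1 = 1; rw [one_mul]
  | succ N ih =>
    rw [XN_succ, XN_succ, XN_succ]
    have h1 : XN N a * lev N (2 * a N) * (XN N b * lev N (2 * b N)) =
        XN N a * (lev N (2 * a N) * XN N b) * lev N (2 * b N) := by simp only [mul_assoc]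
    rw [h1, ← XN_comm_lev hb N N (ha N)]
    have h2 : XN N a * (XN N b * lev N (2 * a N)) * lev N (2 * b N) =
        XN N a * XN N b * (lev N (2 * a N) * lev N (2 * b N)) := by simp only [mul_assoc]
    rw [h2, ih, lev_mul]
    congr 2
    show 2 * a N + 2 * b N = 2 * (a N + b N)
    ring

theorem XN_zero (N : ℕ) : XN N 0 = 1 := by
  induction N with
  | zero => rfl
  | succ N ih =>
    rw [XN_succ, ih, one_mul]
    have : (2 : ℕ → ℤ) * (0 : ℕ → ℕ → ℤ) N = 0 := by
      show (2 : ℕ → ℤ) * 0 = 0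
      rw [mul_zero]
    rw [this, lev_zero]

/-- the rotation is trivial inside the disc, for even multiplicity -/
theorem rotF_in {b : ℕ → ℤ} (hb : ∀ n, Even (b n)) {n : ℕ} {z : ℂ} (hz : ‖z - ctr n‖ ≤ 1) :
    rotF b z = z := by
  rw [rotF_near (n := n) (by linarith)]
  unfold rot1
  rw [prof_one hz]
  obtain ⟨c, hc⟩ := hb n
  have e2 : ((Real.pi * (b n) * 1 : ℝ) : ℂ) * Complex.I = (c : ℤ) * (2 * Real.pi * Complex.I) := by
    rw [hc]; push_cast; ring
  rw [e2, Complex.exp_int_mul_two_pi_mul_I]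
  ring

theorem lev_small {N : ℕ} {b : ℕ → ℤ} (hb : ∀ n, Even (b n)) {z : ℂ} (hz : ‖z‖ ≤ 6 ^ N / 2) :
    lev N b z = z := by
  rw [lev_apply]
  have h6 : (6 : ℂ) ^ N ≠ 0 := pow_ne_zero _ (by norm_num)
  have h1 : ‖z / 6 ^ N‖ ≤ 1 / 2 := by
    rw [norm_div, norm_pow]
    have : ‖(6 : ℂ)‖ = 6 := by norm_num
    rw [this, div_le_iff₀ (by positivity)]
    linarith
  have h2 : ‖z / 6 ^ N - ctr 0‖ ≤ 1 := by
    have h3 : ‖ctr 0‖ = 1 / 2 := by
      unfold ctr
      rw [Complex.norm_real]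
      norm_num
    calc _ ≤ ‖z / 6 ^ N‖ + ‖ctr 0‖ := norm_sub_le _ _
      _ ≤ 1 := by rw [h3]; linarith
  rw [rotF_in hb h2]
  field_simp

theorem XN_stable (a : ℕ → ℕ → ℤ) {N M : ℕ} (hNM : N ≤ M) {z : ℂ} (hz : ‖z‖ ≤ 6 ^ N / 2) :
    XN M a z = XN N a z := by
  induction M, hNM using Nat.le_induction with
  | base => rfl
  | succ M hM ih =>
    have h1 : XN (M + 1) a z = XN M a (lev M (2 * a M) z) := rfl
    have h2 : (6 : ℝ) ^ N ≤ 6 ^ M := pow_le_pow_right₀ (by norm_num) hM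
    rw [h1, lev_small (even_two _) (by linarith), ih]

/-- the number of factors needed at `z` -/
def cnt (z : ℂ) : ℕ := ⌈2 * ‖z‖⌉₊

theorem cnt_spec {z : ℂ} {N : ℕ} (h : cnt z ≤ N) : ‖z‖ ≤ 6 ^ N / 2 := by
  have h1 : 2 * ‖z‖ ≤ cnt z := Nat.le_ceil _
  have h2 : (cnt z : ℝ) ≤ N := by exact_mod_cast h
  have h3 : (N : ℝ) ≤ 6 ^ N := by
    have : N < 6 ^ N := Nat.lt_pow_self (by norm_num)
    exact_mod_cast this.le
  linarith

/-- infinite products of full twists -/
def XF (a : ℕ → ℕ → ℤ) (z : ℂ) : ℂ := XN (cnt z) a z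

theorem XF_eq (a : ℕ → ℕ → ℤ) {N : ℕ} {z : ℂ} (h : ‖z‖ ≤ 6 ^ N / 2) : XF a z = XN N a z := by
  unfold XF
  have h1 := XN_stable a (le_max_left (cnt z) N) (cnt_spec le_rfl)
  have h2 := XN_stable a (le_max_right (cnt z) N) h
  rw [← h1, h2]

theorem XF_add {a b : ℕ → ℕ → ℤ} (hb : ∀ i, Supp (b i)) (ha : ∀ i, Supp (a i)) (z : ℂ) :
    XF a (XF b z) = XF (a + b) z := by
  set N := max (cnt z) (cnt (XF b z)) with hN
  have h1 : XF b z = XN N b z := XF_eq b (cnt_spec (le_max_left _ _))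
  have h2 : XF a (XF b z) = XN N a (XF b z) := XF_eq a (cnt_spec (le_max_right _ _))
  have h3 : XF (a + b) z = XN N (a + b) z := XF_eq _ (cnt_spec (le_max_left _ _))
  rw [h2, h1, h3, ← XN_mul hb ha]
  rfl

theorem XF_zero (z : ℂ) : XF 0 z = z := by
  unfold XF
  rw [XN_zero]
  rfl

theorem lev_contDiff (j : ℕ) (b : ℕ → ℤ) : ContDiff ℝ ∞ (lev j b) := by
  have h : (lev j b : ℂ → ℂ) = fun z => 6 ^ j * rotF b (z / 6 ^ j) := by
    funext z; exact lev_apply j b z
  rw [h]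
  exact contDiff_const.mul ((rotF_contDiff b).comp (contDiff_id.div_const _))

theorem XN_contDiff (N : ℕ) (a : ℕ → ℕ → ℤ) : ContDiff ℝ ∞ (XN N a) := by
  induction N with
  | zero => exact contDiff_id
  | succ N ih => exact ih.comp (lev_contDiff _ _)

theorem XF_contDiff (a : ℕ → ℕ → ℤ) : ContDiff ℝ ∞ (XF a) := by
  rw [contDiff_iff_contDiffAt]
  intro z
  obtain ⟨N, hN⟩ : ∃ N : ℕ, ‖z‖ + 1 ≤ 6 ^ N / 2 := by
    obtain ⟨N, hN⟩ := exists_nat_gt (2 * (‖z‖ + 1))
    refine ⟨N, ?_⟩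
    have h3 : (N : ℝ) ≤ 6 ^ N := by
      have : N < 6 ^ N := Nat.lt_pow_self (by norm_num)
      exact_mod_cast this.le
    linarith
  have h1 : XF a =ᶠ[𝓝 z] XN N a := by
    have h5 : ∀ᶠ w in 𝓝 z, ‖w‖ < ‖z‖ + 1 :=
      (continuous_norm.continuousAt (x := z)).eventually_lt continuousAt_const (by linarith)
    filter_upwards [h5] with w hw
    exact XF_eq a (by linarith)
  exact (XN_contDiff N a).contDiffAt.congr_of_eventuallyEq h1

/-- families of multiplicity functions supported on `P` -/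
@[ext]
structure Fam where
  /-- the multiplicities -/
  val : ℕ → ℕ → ℤ
  supp : ∀ i, Supp (val i)

/-- infinite product of full twists, as a homeomorphism -/
def X (a : Fam) : ℂ ≃ₜ ℂ where
  toFun := XF a.1
  invFun := XF (-a.1)
  left_inv z := by
    have h := XF_add (a := -a.1) (b := a.1) a.2 (fun i => (a.2 i).neg) z
    rw [neg_add_cancel, XF_zero] at h
    exact h
  right_inv z := by
    have h := XF_add (a := a.1) (b := -a.1) (fun i => (a.2 i).neg) a.2 z
    rw [add_neg_cancel, XF_zero] at h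
    exact h
  continuous_toFun := (XF_contDiff _).continuous
  continuous_invFun := (XF_contDiff _).continuous

theorem X_apply (a : Fam) (z : ℂ) : X a z = XF a.1 z := rfl

instance : Add Fam := ⟨fun a b => ⟨a.1 + b.1, fun i => (a.2 i).add (b.2 i)⟩⟩
instance : Neg Fam := ⟨fun a => ⟨-a.1, fun i => (a.2 i).neg⟩⟩
instance : Zero Fam := ⟨⟨0, fun _ => Supp.zero⟩⟩

theorem Fam.add_val (a b : Fam) : (a + b).1 = a.1 + b.1 := rfl
theorem Fam.neg_val (a : Fam) : (-a).1 = -a.1 := rfl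
theorem Fam.zero_val : (0 : Fam).1 = 0 := rfl

theorem X_mul (a b : Fam) : X a * X b = X (a + b) := by
  ext z
  show XF a.1 (XF b.1 z) = XF (a.1 + b.1) z
  exact XF_add b.2 a.2 z

theorem X_zero : X 0 = 1 := by
  ext z
  exact XF_zero z

theorem X_inv (a : Fam) : (X a)⁻¹ = X (-a) := by
  rw [inv_eq_iff_mul_eq_one, X_mul]
  have : a + -a = 0 := Fam.ext (by rw [Fam.add_val, Fam.neg_val, add_neg_cancel]; rfl)
  rw [this, X_zero]

theorem X_comm (a b : Fam) : X a * X b = X b * X a := by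
  rw [X_mul, X_mul]
  congr 1
  exact Fam.ext (add_comm _ _)

/-- shift of the levels -/
def sh (a : Fam) : Fam :=
  ⟨fun i => match i with
    | 0 => 0
    | i + 1 => a.1 i, fun i => by
    cases i with
    | zero => exact Supp.zero
    | succ i => exact a.2 i⟩

theorem sh_zero (a : Fam) : (sh a).1 0 = 0 := rfl
theorem sh_succ (a : Fam) (i : ℕ) : (sh a).1 (i + 1) = a.1 i := rfl

theorem dil_XN (a : Fam) (N : ℕ) : dil * XN N a.1 = XN (N + 1) (sh a).1 * dil := by
  induction N with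
  | zero =>
    rw [XN_succ, sh_zero]
    have h1 : (2 : ℕ → ℤ) * 0 = 0 := mul_zero _
    rw [h1, lev_zero]
    show dil * 1 = 1 * 1 * dil
    group
  | succ N ih =>
    rw [XN_succ, ← mul_assoc, ih, XN_succ (N + 1), sh_succ]
    have h1 := lev_shift 1 N (2 * a.1 N)
    rw [pow_one, add_comm 1 N] at h1
    rw [h1]
    group

theorem dil_X (a : Fam) : dil * X a = X (sh a) * dil := by
  ext z
  show dil (XF a.1 z) = XF (sh a).1 (dil z)
  set N := max (cnt z) (cnt (dil z)) with hN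
  have h1 : XF a.1 z = XN N a.1 z := XF_eq _ (cnt_spec (le_max_left _ _))
  have h2 : XF (sh a).1 (dil z) = XN (N + 1) (sh a).1 (dil z) :=
    XF_eq _ (cnt_spec ((le_max_right _ _).trans (Nat.le_succ _)))
  rw [h1, h2]
  exact congrArg (fun f : ℂ ≃ₜ ℂ => f z) (dil_XN a N)

/-- conjugation of the twists of level `i` by the half turns of level `j` -/
def cj (j : ℕ) (a : Fam) : Fam :=
  ⟨fun i => if i < j then tr (j - i) oneP (a.1 i) else a.1 i, fun i => by
    split_ifs
    · exact fun n hn => tr_supp _ _ _ n hn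
    · exact a.2 i⟩

theorem tr_two (j : ℕ) (b a : ℕ → ℤ) : tr j b (2 * a) = 2 * tr j b a := by
  funext n
  show tr j b (2 * a) n = 2 * tr j b a n
  unfold tr
  by_cases h : P n
  · rw [if_pos h, if_pos h]; rfl
  · rw [if_neg h, if_neg h, mul_zero]

theorem lev_lev (a : Fam) (i j : ℕ) :
    lev j oneP * lev i (2 * a.1 i) = lev i (2 * (cj j a).1 i) * lev j oneP := by
  have hcj : (cj j a).1 i = if i < j then tr (j - i) oneP (a.1 i) else a.1 i := rfl
  rcases lt_trichotomy i j with h | h | h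
  · rw [hcj, if_pos h]
    obtain ⟨k, rfl⟩ : ∃ k, j = i + k := ⟨j - i, by omega⟩
    have hk : 1 ≤ k := by omega
    rw [Nat.add_sub_cancel_left, lev_shift]
    have h1 := lev_Rot (show ∀ n, (2 * a.1 i) n ≠ 0 → P n from (a.2 i).two) hk oneP
    rw [tr_two] at h1
    have e1 : dil ^ i * lev k oneP * (dil ^ i)⁻¹ * lev i (2 * a.1 i) =
        dil ^ i * (lev k oneP * Rot (2 * a.1 i)) * (dil ^ i)⁻¹ := by
      unfold lev; group
    rw [e1, h1]
    have e2 : lev i (2 * tr k oneP (a.1 i)) =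
      dil ^ i * Rot (2 * tr k oneP (a.1 i)) * (dil ^ i)⁻¹ := rfl
    rw [e2]
    group
  · subst h
    rw [hcj, if_neg (lt_irrefl _)]
    exact lev_comm_same _ _ _
  · rw [hcj, if_neg (by omega)]
    exact lev_comm_lt h oneP_supp (even_two _)

theorem lev_XN (a : Fam) (j N : ℕ) :
    lev j oneP * XN N a.1 = XN N (cj j a).1 * lev j oneP := by
  induction N with
  | zero => show lev j oneP * 1 = 1 * lev j oneP; rw [one_mul, mul_one]
  | succ N ih => rw [XN_succ, ← mul_assoc, ih, mul_assoc, lev_lev, ← mul_assoc, XN_succ]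

theorem lev_X (a : Fam) (j : ℕ) : lev j oneP * X a = X (cj j a) * lev j oneP := by
  ext z
  show lev j oneP (XF a.1 z) = XF (cj j a).1 (lev j oneP z)
  set N := max (cnt z) (cnt (lev j oneP z)) with hN
  have h1 : XF a.1 z = XN N a.1 z := XF_eq _ (cnt_spec (le_max_left _ _))
  have h2 : XF (cj j a).1 (lev j oneP z) = XN N (cj j a).1 (lev j oneP z) :=
    XF_eq _ (cnt_spec (le_max_right _ _))
  rw [h1, h2]
  exact congrArg (fun f : ℂ ≃ₜ ℂ => f z) (lev_XN a j N)

theorem lev_oneP_comm (i j : ℕ) : lev i oneP * lev j oneP = lev j oneP * lev i oneP := by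
  have key : ∀ i k : ℕ, 1 ≤ k → lev i oneP * lev (i + k) oneP = lev (i + k) oneP * lev i oneP := by
    intro i k hk
    rw [lev_shift]
    have h := lev_oneP hk oneP
    exact (conj_comm h).symm
  rcases lt_trichotomy i j with h | h | h
  · obtain ⟨k, rfl⟩ : ∃ k, j = i + k := ⟨j - i, by omega⟩
    exact key i k (by omega)
  · subst h; rfl
  · obtain ⟨k, rfl⟩ : ∃ k, i = j + k := ⟨i - j, by omega⟩
    exact (key j k (by omega)).symm

end

end Pool.Agent.Helper240.FlatE
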