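import Mathlib

/-!
Level zero of a self similar system of discs of the plane, and the homeomorphisms rotating the
discs.
-/

set_option autoImplicit false

open Filter Topology
open scoped ContDiff

namespace Pool.Agent.Helper240.FlatE

noncomputable section

/-- The profile: equal to one on the closed unit disc, to zero outside the disc of radius two. -/
def prof (w : ℂ) : ℝ := Real.smoothTransition ((4 - Complex.normSq w) / 3)

theorem prof_one {w : ℂ} (h : ‖w‖ ≤ 1) : prof w = 1 := by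
  unfold prof
  apply Real.smoothTransition.one_of_one_le
  have : Complex.normSq w = ‖w‖ ^ 2 := Complex.normSq_eq_norm_sq w
  rw [this]
  nlinarith [norm_nonneg w]

theorem prof_zero {w : ℂ} (h : 2 ≤ ‖w‖) : prof w = 0 := by
  unfold prof
  apply Real.smoothTransition.zero_of_nonpos
  have : Complex.normSq w = ‖w‖ ^ 2 := Complex.normSq_eq_norm_sq w
  rw [this]
  nlinarith [norm_nonneg w]

theorem prof_congr {w w' : ℂ} (h : ‖w‖ = ‖w'‖) : prof w = prof w' := by
  unfold prof
  rw [Complex.normSq_eq_norm_sq, Complex.normSq_eq_norm_sq, h]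

theorem prof_contDiff : ContDiff ℝ ∞ prof := by
  unfold prof
  apply Real.smoothTransition.contDiff.comp
  have : ContDiff ℝ ∞ (fun w : ℂ => Complex.normSq w) := by
    simp only [Complex.normSq_apply]
    have h1 : ContDiff ℝ ∞ (fun w : ℂ => w.re) := Complex.reCLM.contDiff
    have h2 : ContDiff ℝ ∞ (fun w : ℂ => w.im) := Complex.imCLM.contDiff
    fun_prop
  fun_prop

/-- the `n`-th centre -/
def ctr (n : ℕ) : ℂ := ((1 / 2 + 5 * n : ℝ) : ℂ)

theorem ctr_re (n : ℕ) : (ctr n).re = 1 / 2 + 5 * n := Complex.ofReal_re _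

/-- the index of the cell containing a point -/
def idx (z : ℂ) : ℕ := ⌊(z.re + 2) / 5⌋₊

theorem idx_eq {z : ℂ} {n : ℕ} (h : ‖z - ctr n‖ < 5 / 2) : idx z = n := by
  have h1 : |(z - ctr n).re| < 5 / 2 := (Complex.abs_re_le_norm _).trans_lt h
  rw [Complex.sub_re, ctr_re, abs_lt] at h1
  unfold idx
  have h3 : (0 : ℝ) ≤ n := Nat.cast_nonneg n
  rw [Nat.floor_eq_iff (by linarith [h1.1])]
  constructor <;> linarith [h1.1, h1.2]

/-- rotation by `c` half turns around the `n`-th centre, cut off -/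
def rot1 (n : ℕ) (c : ℤ) (z : ℂ) : ℂ :=
  ctr n + (z - ctr n) * Complex.exp ((Real.pi * c * prof (z - ctr n) : ℝ) * Complex.I)

theorem rot1_contDiff (n : ℕ) (c : ℤ) : ContDiff ℝ ∞ (rot1 n c) := by
  unfold rot1
  have h1 : ContDiff ℝ ∞ (fun z : ℂ => prof (z - ctr n)) := prof_contDiff.comp (by fun_prop)
  have h2 : ContDiff ℝ ∞ (fun z : ℂ => ((Real.pi * c * prof (z - ctr n) : ℝ) : ℂ)) :=
    Complex.ofRealCLM.contDiff.comp (contDiff_const.mul h1)
  have h3 : ContDiff ℝ ∞ (fun z : ℂ => Complex.exp (((Real.pi * c * prof (z - ctr n) : ℝ) : ℂ) *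
      Complex.I)) := (h2.mul contDiff_const).cexp
  exact contDiff_const.add ((contDiff_id.sub contDiff_const).mul h3)

theorem rot1_far {n : ℕ} {c : ℤ} {z : ℂ} (h : 2 ≤ ‖z - ctr n‖) : rot1 n c z = z := by
  unfold rot1
  rw [prof_zero h]
  simp

theorem rot1_norm (n : ℕ) (c : ℤ) (z : ℂ) : ‖rot1 n c z - ctr n‖ = ‖z - ctr n‖ := by
  unfold rot1
  rw [add_sub_cancel_left, norm_mul, Complex.norm_exp_ofReal_mul_I, mul_one]

theorem rot1_add (n : ℕ) (c d : ℤ) (z : ℂ) : rot1 n c (rot1 n d z) = rot1 n (c + d) z := by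
  have h := prof_congr (rot1_norm n d z)
  have h2 : rot1 n c (rot1 n d z) = ctr n + (rot1 n d z - ctr n) *
    Complex.exp ((Real.pi * c * prof (rot1 n d z - ctr n) : ℝ) * Complex.I) := rfl
  rw [h2, h]
  have h3 : rot1 n d z - ctr n = (z - ctr n) *
    Complex.exp ((Real.pi * d * prof (z - ctr n) : ℝ) * Complex.I) := by
    unfold rot1; ring
  rw [h3]
  unfold rot1
  rw [mul_assoc, ← Complex.exp_add]
  congr 3
  push_cast
  ring

/-- rotation by `a n` half turns around the `n`-th centre, for all `n` -/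
def rotF (a : ℕ → ℤ) (z : ℂ) : ℂ := rot1 (idx z) (a (idx z)) z

theorem rotF_near {a : ℕ → ℤ} {n : ℕ} {z : ℂ} (h : ‖z - ctr n‖ < 5 / 2) :
    rotF a z = rot1 n (a n) z := by
  unfold rotF
  rw [idx_eq h]

theorem rotF_far {a : ℕ → ℤ} {z : ℂ} (h : ∀ n, 2 ≤ ‖z - ctr n‖) : rotF a z = z :=
  rot1_far (h _)

/-- it is enough that the centres with nonzero multiplicity are far -/
theorem rotF_far' {a : ℕ → ℤ} {z : ℂ} (h : ∀ n, a n ≠ 0 → 2 ≤ ‖z - ctr n‖) : rotF a z = z := by
  unfold rotF
  by_cases h0 : a (idx z) = 0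
  · rw [h0]
    unfold rot1
    simp
  · exact rot1_far (h _ h0)

theorem idx_rotF (a : ℕ → ℤ) (z : ℂ) : idx (rotF a z) = idx z ∨ rotF a z = z := by
  by_cases h : ‖z - ctr (idx z)‖ < 2
  · left
    apply idx_eq
    unfold rotF
    rw [rot1_norm]
    linarith
  · right
    exact rot1_far (not_lt.mp h)

theorem rotF_add (a b : ℕ → ℤ) (z : ℂ) : rotF a (rotF b z) = rotF (a + b) z := by
  by_cases h : ‖z - ctr (idx z)‖ < 2
  · have h1 : rotF b z = rot1 (idx z) (b (idx z)) z := rfl
    have h2 : ‖rotF b z - ctr (idx z)‖ < 5 / 2 := by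
      rw [h1, rot1_norm]; linarith
    rw [rotF_near h2, h1, rot1_add]
    rfl
  · have h2 := not_lt.mp h
    have h1 : ∀ c : ℕ → ℤ, rotF c z = z := fun c => rot1_far h2
    rw [h1 b, h1 a, h1]

theorem rotF_zero (z : ℂ) : rotF 0 z = z := by
  unfold rotF rot1
  simp

theorem rotF_contDiff (a : ℕ → ℤ) : ContDiff ℝ ∞ (rotF a) := by
  rw [contDiff_iff_contDiffAt]
  intro z
  set n := idx z with hn
  have h1 : rotF a =ᶠ[𝓝 z] rot1 n (a n) := by
    by_cases h : ‖z - ctr n‖ < 9 / 4
    · have h2 : ∀ᶠ w in 𝓝 z, ‖w - ctr n‖ < 9 / 4 := by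
        have : Continuous (fun w : ℂ => ‖w - ctr n‖) := by fun_prop
        exact this.continuousAt.eventually_lt continuousAt_const h
      filter_upwards [h2] with w hw
      exact rotF_near (by linarith)
    · have h3 : ∀ m, 9 / 4 ≤ ‖z - ctr m‖ := by
        intro m
        by_contra hm
        push Not at hm
        have h4 : idx z = m := idx_eq (by linarith)
        rw [← hn] at h4
        rw [h4] at h
        exact h hm
      -- near z, all points are far from all centres
      have h5 : ∀ᶠ w in 𝓝 z, ‖w - z‖ < 1 / 4 := by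
        have : Continuous (fun w : ℂ => ‖w - z‖) := by fun_prop
        have := this.continuousAt (x := z)
        refine this.eventually_lt continuousAt_const ?_
        simp
      filter_upwards [h5] with w hw
      have h6 : ∀ m, 2 ≤ ‖w - ctr m‖ := by
        intro m
        have h7 : ‖z - ctr m‖ ≤ ‖w - ctr m‖ + ‖w - z‖ := by
          calc ‖z - ctr m‖ = ‖(w - ctr m) - (w - z)‖ := by ring_nf
            _ ≤ _ := norm_sub_le _ _
        linarith [h3 m]
      rw [rotF_far h6, rot1_far (h6 n)]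
  exact (rot1_contDiff n (a n)).contDiffAt.congr_of_eventuallyEq h1

/-- `rotF` as a homeomorphism -/
def Rot (a : ℕ → ℤ) : ℂ ≃ₜ ℂ where
  toFun := rotF a
  invFun := rotF (-a)
  left_inv z := by rw [rotF_add, neg_add_cancel, rotF_zero]
  right_inv z := by rw [rotF_add, add_neg_cancel, rotF_zero]
  continuous_toFun := (rotF_contDiff a).continuous
  continuous_invFun := (rotF_contDiff (-a)).continuous

theorem Rot_apply (a : ℕ → ℤ) (z : ℂ) : Rot a z = rotF a z := rfl

theorem Rot_mul (a b : ℕ → ℤ) : Rot a * Rot b = Rot (a + b) := by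
  ext z
  show rotF a (rotF b z) = rotF (a + b) z
  rw [rotF_add]

theorem Rot_zero : Rot 0 = 1 := by
  ext z
  show rotF 0 z = z
  rw [rotF_zero]

theorem Rot_inv (a : ℕ → ℤ) : (Rot a)⁻¹ = Rot (-a) := by
  rw [inv_eq_iff_mul_eq_one, Rot_mul, add_neg_cancel, Rot_zero]

end

end Pool.Agent.Helper240.FlatE
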