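import Pool.Agent.Helper240.FlatE.Rot

/-!
The tree structure of the discs: the homeomorphisms at level `j` permute the discs of level zero
by rigid motions.
-/

set_option autoImplicit false

open Filter Topology
open scoped ContDiff

namespace Pool.Agent.Helper240.FlatE

noncomputable section

/-- all digits in base six are zero or one -/
def P (n : ℕ) : Prop := ∀ d ∈ Nat.digits 6 n, d ≤ 1

theorem P_zero : P 0 := by simp [P]

theorem P_one : P 1 := by simp [P]

theorem P_iff (n : ℕ) : P n ↔ n % 6 ≤ 1 ∧ P (n / 6) := by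
  rcases Nat.eq_zero_or_pos n with h | h
  · subst h; simp [P]
  · unfold P
    rw [Nat.digits_def' (by norm_num) h]
    simp

/-- exchange the digits zero and one in the last `j` places -/
def flip : ℕ → ℕ → ℕ
  | 0, n => n
  | j + 1, n => 6 * flip j (n / 6) + (1 - n % 6)

theorem flip_P {n : ℕ} (h : P n) (j : ℕ) : P (flip j n) := by
  induction j generalizing n with
  | zero => exact h
  | succ j ih =>
    have h1 := (P_iff n).1 h
    have h2 := ih h1.2
    rw [P_iff]
    show (6 * flip j (n / 6) + (1 - n % 6)) % 6 ≤ 1 ∧ P ((6 * flip j (n / 6) + (1 - n % 6)) / 6)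
    have e1 : (6 * flip j (n / 6) + (1 - n % 6)) % 6 = 1 - n % 6 := by omega
    have e2 : (6 * flip j (n / 6) + (1 - n % 6)) / 6 = flip j (n / 6) := by omega
    rw [e1, e2]
    exact ⟨by omega, h2⟩

theorem flip_succ_div (j n : ℕ) : flip (j + 1) n / 6 = flip j (n / 6) := by
  show (6 * flip j (n / 6) + (1 - n % 6)) / 6 = flip j (n / 6)
  omega

theorem flip_succ_mod (j n : ℕ) : flip (j + 1) n % 6 = 1 - n % 6 := by
  show (6 * flip j (n / 6) + (1 - n % 6)) % 6 = 1 - n % 6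
  omega

theorem flip_flip {n : ℕ} (h : P n) (j : ℕ) : flip j (flip j n) = n := by
  induction j generalizing n with
  | zero => rfl
  | succ j ih =>
    have h1 := (P_iff n).1 h
    show 6 * flip j (flip (j + 1) n / 6) + (1 - flip (j + 1) n % 6) = n
    rw [flip_succ_div, flip_succ_mod, ih h1.2]
    omega

theorem flip_anc (n j : ℕ) : flip j n / 6 ^ j = n / 6 ^ j := by
  induction j generalizing n with
  | zero => rfl
  | succ j ih =>
    rw [pow_succ', ← Nat.div_div_eq_div_mul, ← Nat.div_div_eq_div_mul, flip_succ_div, ih]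

theorem P_div {n : ℕ} (h : P n) (j : ℕ) : P (n / 6 ^ j) := by
  induction j generalizing n with
  | zero => simpa using h
  | succ j ih =>
    rw [pow_succ', ← Nat.div_div_eq_div_mul]
    exact ih ((P_iff n).1 h).2

theorem ctr_def (n : ℕ) : ctr n = 1 / 2 + 5 * (n : ℂ) := by
  unfold ctr; push_cast; ring

theorem flip_ctr {n : ℕ} (h : P n) (j : ℕ) :
    ctr (flip j n) = 2 * (6 ^ j * ctr (n / 6 ^ j)) - ctr n := by
  induction j generalizing n with
  | zero => simp [flip]; ring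
  | succ j ih =>
    have h1 := (P_iff n).1 h
    have h2 := ih h1.2
    have e1 : n / 6 ^ (j + 1) = n / 6 / 6 ^ j := by
      rw [pow_succ', ← Nat.div_div_eq_div_mul]
    rw [e1]
    have e2 : (n : ℂ) = 6 * ((n / 6 : ℕ) : ℂ) + ((n % 6 : ℕ) : ℂ) := by
      have : n = 6 * (n / 6) + n % 6 := (Nat.div_add_mod n 6).symm
      exact_mod_cast congrArg (fun k : ℕ => (k : ℂ)) this
    have e3 : ctr (flip (j + 1) n) = 6 * ctr (flip j (n / 6)) - 5 / 2 + 5 * (1 - ((n % 6 : ℕ) : ℂ)) := by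
      rw [ctr_def, ctr_def]
      show 1 / 2 + 5 * ((6 * flip j (n / 6) + (1 - n % 6) : ℕ) : ℂ) = _
      rw [Nat.cast_add, Nat.cast_mul, Nat.cast_sub h1.1]
      push_cast
      ring
    rw [e3, h2]
    have e4 : ctr n = 6 * ctr (n / 6) - 5 / 2 + 5 * ((n % 6 : ℕ) : ℂ) := by
      rw [ctr_def, ctr_def, e2]; ring
    rw [e4]
    ring

theorem parent {n : ℕ} (h : P n) {w : ℂ} {r : ℝ} (hw : ‖w - ctr n‖ < r) :
    ‖w / 6 - ctr (n / 6)‖ < r / 6 + 5 / 12 := by
  have h1 := (P_iff n).1 h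
  have e2 : (n : ℂ) = 6 * ((n / 6 : ℕ) : ℂ) + ((n % 6 : ℕ) : ℂ) := by
    have : n = 6 * (n / 6) + n % 6 := (Nat.div_add_mod n 6).symm
    exact_mod_cast congrArg (fun k : ℕ => (k : ℂ)) this
  have e4 : ctr n = 6 * ctr (n / 6) - 5 / 2 + 5 * ((n % 6 : ℕ) : ℂ) := by
    rw [ctr_def, ctr_def, e2]; ring
  have e5 : w / 6 - ctr (n / 6) = (w - ctr n) / 6 + (-5 / 12 + 5 / 6 * ((n % 6 : ℕ) : ℂ)) := by
    rw [e4]; ring
  have e6 : ‖(-5 / 12 + 5 / 6 * ((n % 6 : ℕ) : ℂ))‖ = 5 / 12 := by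
    have h2 : n % 6 = 0 ∨ n % 6 = 1 := by omega
    rcases h2 with h2 | h2 <;> rw [h2] <;> norm_num
  rw [e5]
  have e7 : ‖(w - ctr n) / 6‖ = ‖w - ctr n‖ / 6 := by rw [norm_div]; norm_num
  calc _ ≤ ‖(w - ctr n) / 6‖ + ‖(-5 / 12 + 5 / 6 * ((n % 6 : ℕ) : ℂ))‖ := norm_add_le _ _
    _ = ‖w - ctr n‖ / 6 + 5 / 12 := by rw [e7, e6]
    _ < _ := by linarith

theorem ancestor {n : ℕ} (h : P n) {w : ℂ} (hw : ‖w - ctr n‖ < 2) {j : ℕ} (hj : 1 ≤ j) :
    ‖w / 6 ^ j - ctr (n / 6 ^ j)‖ < 1 := by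
  induction j, hj using Nat.le_induction with
  | base =>
    have := parent h hw
    simp only [pow_one]
    linarith
  | succ j hj ih =>
    have := parent (P_div h j) ih
    rw [pow_succ (6 : ℂ), pow_succ (6 : ℕ), ← div_div, ← Nat.div_div_eq_div_mul]
    linarith

/-- the dilation by six -/
def dil : ℂ ≃ₜ ℂ := Homeomorph.mulLeft₀ (6 : ℂ) (by norm_num)

theorem dil_apply (z : ℂ) : dil z = 6 * z := rfl

theorem dil_inv_apply (z : ℂ) : dil⁻¹ z = z / 6 := by
  have : dil (z / 6) = z := by rw [dil_apply]; ring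
  rw [← this]
  show dil.symm (dil _) = _
  rw [dil.symm_apply_apply, dil_apply]
  ring

theorem dil_pow_apply (j : ℕ) (z : ℂ) : (dil ^ j) z = 6 ^ j * z := by
  induction j generalizing z with
  | zero => simp
  | succ j ih =>
    have h : (dil ^ (j + 1)) z = dil ((dil ^ j) z) := by rw [pow_succ']; rfl
    rw [h, ih, dil_apply]
    ring

theorem dil_pow_inv_apply (j : ℕ) (z : ℂ) : (dil ^ j)⁻¹ z = z / 6 ^ j := by
  have h6 : (6 : ℂ) ^ j ≠ 0 := pow_ne_zero _ (by norm_num)
  have : (dil ^ j) (z / 6 ^ j) = z := by rw [dil_pow_apply]; field_simp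
  rw [← this]
  show (dil ^ j).symm ((dil ^ j) _) = _
  rw [(dil ^ j).symm_apply_apply, dil_pow_apply]
  field_simp

/-- rotations of the discs of level `j` -/
def lev (j : ℕ) (b : ℕ → ℤ) : ℂ ≃ₜ ℂ := dil ^ j * Rot b * (dil ^ j)⁻¹

theorem lev_apply (j : ℕ) (b : ℕ → ℤ) (z : ℂ) : lev j b z = 6 ^ j * rotF b (z / 6 ^ j) := by
  show (dil ^ j) (Rot b ((dil ^ j)⁻¹ z)) = _
  rw [dil_pow_inv_apply, dil_pow_apply, Rot_apply]

theorem lev_mul (j : ℕ) (a b : ℕ → ℤ) : lev j a * lev j b = lev j (a + b) := by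
  unfold lev
  rw [← Rot_mul]
  group

theorem lev_zero (j : ℕ) : lev j 0 = 1 := by
  unfold lev
  rw [Rot_zero]
  group

theorem lev_inv (j : ℕ) (b : ℕ → ℤ) : (lev j b)⁻¹ = lev j (-b) := by
  rw [inv_eq_iff_mul_eq_one, lev_mul, add_neg_cancel, lev_zero]

open Classical in
/-- permutation of the discs of level zero by `lev j b` -/
def sig (j : ℕ) (b : ℕ → ℤ) (n : ℕ) : ℕ := if Odd (b (n / 6 ^ j)) then flip j n else n

theorem sig_P {n : ℕ} (h : P n) (j : ℕ) (b : ℕ → ℤ) : P (sig j b n) := by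
  unfold sig
  split_ifs
  · exact flip_P h j
  · exact h

theorem sig_sig {n : ℕ} (h : P n) (j : ℕ) (b : ℕ → ℤ) : sig j b (sig j b n) = n := by
  by_cases ho : Odd (b (n / 6 ^ j))
  · have h1 : sig j b n = flip j n := by unfold sig; rw [if_pos ho]
    rw [h1]
    unfold sig
    rw [flip_anc, if_pos ho, flip_flip h]
  · have h1 : sig j b n = n := by unfold sig; rw [if_neg ho]
    rw [h1, h1]

theorem sig_neg (j : ℕ) (b : ℕ → ℤ) (n : ℕ) : sig j (-b) n = sig j b n := by
  unfold sig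
  simp

/-- `lev j b` acts on the discs of level zero by rigid motions -/
theorem lev_rigid {n : ℕ} (h : P n) {w : ℂ} (hw : ‖w - ctr n‖ < 2) {j : ℕ} (hj : 1 ≤ j)
    (b : ℕ → ℤ) :
    lev j b w = ctr (sig j b n) + (if Odd (b (n / 6 ^ j)) then -1 else 1) * (w - ctr n) := by
  have h1 := ancestor h hw hj
  have h6 : (6 : ℂ) ^ j ≠ 0 := pow_ne_zero _ (by norm_num)
  rw [lev_apply, rotF_near (n := n / 6 ^ j) (by linarith)]
  unfold rot1
  rw [prof_one h1.le]
  have e1 : Complex.exp ((Real.pi * (b (n / 6 ^ j)) * 1 : ℝ) * Complex.I) =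
      if Odd (b (n / 6 ^ j)) then -1 else 1 := by
    have e2 : ((Real.pi * (b (n / 6 ^ j)) * 1 : ℝ) : ℂ) * Complex.I =
        (b (n / 6 ^ j) : ℤ) * (Real.pi * Complex.I) := by
      push_cast; ring
    rw [e2, Complex.exp_int_mul, Complex.exp_pi_mul_I]
    split_ifs with ho
    · exact ho.neg_one_zpow
    · exact (Int.not_odd_iff_even.mp ho).neg_one_zpow
  rw [e1]
  unfold sig
  split_ifs with ho
  · rw [flip_ctr h]
    field_simp
    ring
  · field_simp
    ring

theorem lev_rigid_norm {n : ℕ} (h : P n) {w : ℂ} (hw : ‖w - ctr n‖ < 2) {j : ℕ} (hj : 1 ≤ j)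
    (b : ℕ → ℤ) : ‖lev j b w - ctr (sig j b n)‖ = ‖w - ctr n‖ := by
  rw [lev_rigid h hw hj b, add_sub_cancel_left, norm_mul]
  split_ifs <;> simp

open Classical in
/-- the transported multiplicity function -/
def tr (j : ℕ) (b : ℕ → ℤ) (a : ℕ → ℤ) (n : ℕ) : ℤ := if P n then a (sig j b n) else 0

theorem tr_supp (j : ℕ) (b a : ℕ → ℤ) (n : ℕ) (h : tr j b a n ≠ 0) : P n := by
  unfold tr at h
  by_contra hn
  rw [if_neg hn] at h
  exact h rfl

theorem tr_sig {j : ℕ} {b a : ℕ → ℤ} {n : ℕ} (h : P n) : tr j b a (sig j b n) = a n := by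
  unfold tr
  rw [if_pos (sig_P h j b), sig_sig h]

/-- conjugation of the rotations of level zero -/
theorem lev_Rot {a : ℕ → ℤ} (ha : ∀ n, a n ≠ 0 → P n) {j : ℕ} (hj : 1 ≤ j) (b : ℕ → ℤ) :
    lev j b * Rot a = Rot (tr j b a) * lev j b := by
  ext w
  show lev j b (rotF a w) = rotF (tr j b a) (lev j b w)
  by_cases h : ∃ n, P n ∧ ‖w - ctr n‖ < 2
  · obtain ⟨n, hn, hw⟩ := h
    have h1 : rotF a w = rot1 n (a n) w := rotF_near (by linarith)
    have h2 : ‖rotF a w - ctr n‖ < 2 := by rw [h1, rot1_norm]; exact hw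
    have h3 := lev_rigid_norm hn hw hj b
    have h4 : rotF (tr j b a) (lev j b w) = rot1 (sig j b n) (a n) (lev j b w) := by
      rw [rotF_near (by rw [h3]; linarith), tr_sig hn]
    rw [h4, lev_rigid hn h2 hj b, h1]
    unfold rot1
    rw [prof_congr h3, lev_rigid hn hw hj b]
    ring
  · push Not at h
    have h1 : rotF a w = w := rotF_far' (fun n hn => h n (ha n hn))
    rw [h1]
    symm
    apply rotF_far'
    intro n hn
    have hP := tr_supp _ _ _ _ hn
    by_contra hlt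
    push Not at hlt
    have h2 := lev_rigid_norm hP hlt hj (-b)
    have h3 : lev j (-b) (lev j b w) = w := by
      have : (lev j (-b) * lev j b) w = w := by rw [lev_mul, neg_add_cancel, lev_zero]; rfl
      exact this
    rw [h3] at h2
    have h4 := h _ (sig_P hP j (-b))
    rw [h2] at h4
    linarith

/-- multiplicity functions with even values are not changed -/
theorem sig_even {j : ℕ} {b : ℕ → ℤ} (hb : ∀ n, Even (b n)) (n : ℕ) : sig j b n = n := by
  unfold sig
  rw [if_neg (Int.not_odd_iff_even.mpr (hb _))]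

theorem tr_even {a : ℕ → ℤ} (ha : ∀ n, a n ≠ 0 → P n) {j : ℕ} {b : ℕ → ℤ} (hb : ∀ n, Even (b n)) :
    tr j b a = a := by
  funext n
  unfold tr
  rw [sig_even hb]
  split_ifs with h
  · rfl
  · by_contra h2
    exact h (ha n (fun h3 => h2 h3.symm))

open Classical in
/-- the constant multiplicity one -/
def oneP (n : ℕ) : ℤ := if P n then 1 else 0

theorem oneP_supp (n : ℕ) (h : oneP n ≠ 0) : P n := by
  unfold oneP at h
  by_contra hn
  rw [if_neg hn] at h
  exact h rfl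

theorem tr_oneP (j : ℕ) (b : ℕ → ℤ) : tr j b oneP = oneP := by
  funext n
  unfold tr oneP
  split_ifs with h h2
  · rfl
  · exact absurd (sig_P h j b) h2
  · rfl

/-- level zero half turns commute with everything of higher level -/
theorem lev_oneP {j : ℕ} (hj : 1 ≤ j) (b : ℕ → ℤ) : lev j b * Rot oneP = Rot oneP * lev j b := by
  rw [lev_Rot oneP_supp hj b, tr_oneP]

/-- full turns of higher level commute with rotations of level zero -/
theorem lev_even {a : ℕ → ℤ} (ha : ∀ n, a n ≠ 0 → P n) {j : ℕ} (hj : 1 ≤ j) {b : ℕ → ℤ}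
    (hb : ∀ n, Even (b n)) : lev j b * Rot a = Rot a * lev j b := by
  rw [lev_Rot ha hj b, tr_even ha hb]

end

end Pool.Agent.Helper240.FlatE
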